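import Pool.Agent.X243.Sol.Cnt6

/-!
Counting the monic polynomials over a finite field with a given type of factorisation, and tuples of
them.
-/

set_option autoImplicit false
set_option linter.all false

open Polynomial
open scoped Classical

namespace Pool.Agent.N197.Htj

open Pool.Agent.X243.Tate Pool.Agent.X243.Sol Pool.Agent.Y160.T3

/-- The coefficients of a monic polynomial of degree `N`. -/
def mv {R : Type} [CommRing R] {N : ℕ} (z : Fin N → R) : Fin (N + 1) → R :=
  Fin.snoc (α := fun _ => R) z 1

/-- The monic polynomial of degree `N` with the given lower coefficients. -/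
noncomputable def mP {R : Type} [CommRing R] {N : ℕ} (z : Fin N → R) : R[X] := bF (mv z)

theorem mP_eq {R : Type} [CommRing R] {N : ℕ} (z : Fin N → R) : mP z = X ^ N + bF z := by
  rw [mP, bF, Fin.sum_univ_castSucc]
  simp only [mv, Fin.snoc_castSucc, Fin.snoc_last, Fin.val_castSucc, Fin.val_last, C_1, one_mul]
  rw [bF, add_comm]

theorem mP_map {R S : Type} [CommRing R] [CommRing S] (g : R →+* S) {N : ℕ} (z : Fin N → R) :
    (mP z).map g = mP (fun j => g (z j)) := by
  rw [mP_eq, mP_eq, bF, bF, Polynomial.map_add, Polynomial.map_pow, map_X, Polynomial.map_sum]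
  congr 1
  refine Finset.sum_congr rfl fun i _ => ?_
  rw [Polynomial.map_mul, map_C, Polynomial.map_pow, map_X]

theorem mP_monic {R : Type} [CommRing R] {N : ℕ} (z : Fin N → R) : (mP z).Monic := by
  rw [mP_eq]
  exact monic_X_pow_add (bF_deg z)

theorem mP_natDegree {R : Type} [CommRing R] [Nontrivial R] {N : ℕ} (z : Fin N → R) :
    (mP z).natDegree = N := by
  rw [mP_eq, natDegree_add_eq_left_of_degree_lt, natDegree_X_pow]
  rw [degree_X_pow]
  exact bF_deg z

theorem mP_natDegree_le {R : Type} [CommRing R] {N : ℕ} (z : Fin N → R) :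
    (mP z).natDegree ≤ N := by
  rcases subsingleton_or_nontrivial R with h | h
  · rw [natDegree_of_subsingleton]
    exact Nat.zero_le _
  · exact (mP_natDegree z).le

section count

variable {F : Type} [Field F] [Finite F]

theorem E3_scale [Fintype F] {N : ℕ} {y : Fin (N + 1) → F} (hy : y ∈ E3 F N) {c : F} (hc : c ≠ 0) :
    (fun j => c * y j) ∈ E3 F N := by
  obtain ⟨d, π, S, hd, h1, h2, h3, h4, h5⟩ := hy
  have e : bF (fun j => c * y j) = C c * bF y := bF_smul c y
  refine ⟨c * d, π, S, mul_ne_zero hc hd, h1, h2, h3, h4, ?_⟩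
  rw [e, h5, C_mul]
  ring

theorem Ev_scale [Fintype F] {N : ℕ} {t : Fin 3} {y : Fin (N + 1) → F} (hy : y ∈ Ev F N t) {c : F} (hc : c ≠ 0) :
    (fun j => c * y j) ∈ Ev F N t := by
  unfold Ev at hy ⊢
  split_ifs at hy ⊢
  · exact E1_scale hy hc
  · exact E2_scale hy hc
  · exact E3_scale hy hc

theorem I3_natDegree {N : ℕ} {f : F[X]} (h : I3 N f) : f.natDegree = N := by
  obtain ⟨d, π, S, hd, h1, h2, h3, h4, h5⟩ := h
  rw [h5, mul_assoc, natDegree_C_mul hd, natDegree_mul h2.ne_zero, h3,
    natDegree_finset_prod_X_sub_C_eq_card]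
  · omega
  · exact (monic_prod_X_sub_C (fun c => c) S).ne_zero

theorem Ev_natDegree {N : ℕ} {t : Fin 3} {y : Fin (N + 1) → F} (hy : y ∈ Ev F N t) :
    (bF y).natDegree = N := by
  unfold Ev at hy
  split_ifs at hy
  · exact hy.2
  · exact hy.1
  · exact I3_natDegree hy

theorem Ev_last {N : ℕ} (hN : 0 < N) {t : Fin 3} {y : Fin (N + 1) → F} (hy : y ∈ Ev F N t) :
    y (Fin.last N) ≠ 0 := by
  have h1 := Ev_natDegree hy
  have h2 : (bF y).coeff ((Fin.last N : Fin (N + 1)) : ℕ) = y (Fin.last N) := bF_coeff y _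
  rw [← h2, Fin.val_last]
  intro h0
  have h4 : (bF y).coeff (bF y).natDegree = 0 := by rw [h1]; exact h0
  rw [coeff_natDegree, leadingCoeff_eq_zero] at h4
  rw [h4, natDegree_zero] at h1
  omega

/-- The monic polynomials of a given type. -/
def Mv (F : Type) [CommRing F] (N : ℕ) (t : Fin 3) : Set (Fin N → F) := {z | mv z ∈ Ev F N t}

theorem Mv_card {N : ℕ} (hN : 3 ≤ N) (hq : 2 * N + 2 ≤ Nat.card F) (t : Fin 3) :
    Nat.card F ^ N ≤ DD N * (Mv F N t).ncard := by
  haveI := Fintype.ofFinite F
  rw [Nat.card_eq_fintype_card] at hq ⊢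
  have h1 := Ev_card (F := F) hN hq t
  have h2 : (Ev F N t).ncard ≤ Fintype.card F * (Mv F N t).ncard := by
    have h3 : (Ev F N t).ncard ≤ ((Set.univ : Set F) ×ˢ (Mv F N t)).ncard := by
      refine Set.ncard_le_ncard_of_injOn
        (fun y => (y (Fin.last N), fun j => (y (Fin.last N))⁻¹ * y (Fin.castSucc j))) ?_ ?_
        (Set.toFinite _)
      · intro y hy
        refine ⟨Set.mem_univ _, ?_⟩
        have hl := Ev_last (by omega) hy
        show mv (fun j => (y (Fin.last N))⁻¹ * y (Fin.castSucc j)) ∈ Ev F N t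
        have e : mv (fun j => (y (Fin.last N))⁻¹ * y (Fin.castSucc j)) =
            fun j => (y (Fin.last N))⁻¹ * y j := by
          funext j
          refine Fin.lastCases ?_ (fun i => ?_) j
          · simp only [mv, Fin.snoc_last]
            rw [inv_mul_cancel₀ hl]
          · simp only [mv, Fin.snoc_castSucc]
        rw [e]
        exact Ev_scale hy (inv_ne_zero hl)
      · intro y hy y' hy' h
        have hl := Ev_last (by omega) hy
        have e1 : y (Fin.last N) = y' (Fin.last N) := congrArg Prod.fst h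
        have e2 := congrArg Prod.snd h
        funext j
        refine Fin.lastCases e1 (fun i => ?_) j
        have e3 := congrFun e2 i
        simp only at e3
        rw [← e1] at e3
        exact mul_left_cancel₀ (inv_ne_zero hl) e3
    rw [Set.ncard_prod, Set.ncard_univ, Nat.card_eq_fintype_card] at h3
    exact h3
  have hq0 : 0 < Fintype.card F := Fintype.card_pos
  have h4 : Fintype.card F * Fintype.card F ^ N ≤ Fintype.card F * (DD N * (Mv F N t).ncard) := by
    calc Fintype.card F * Fintype.card F ^ N = Fintype.card F ^ (N + 1) := by ring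
      _ ≤ DD N * (Ev F N t).ncard := h1
      _ ≤ DD N * (Fintype.card F * (Mv F N t).ncard) := Nat.mul_le_mul_left _ h2
      _ = Fintype.card F * (DD N * (Mv F N t).ncard) := by ring
  exact Nat.le_of_mul_le_mul_left h4 hq0

theorem DD_pos {N : ℕ} (hN : 0 < N) : 0 < DD N := by
  have := D3_pos N
  unfold DD
  positivity

/-- Tuples of monic polynomials with conditions on the factorisations. -/
def Tup (F : Type) [CommRing F] {ι : Type} (n : ι → ℕ) (T : ι → Option (Fin 3)) :
    Set ((Σ i, Fin (n i)) → F) :=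
  {z | ∀ i t, T i = some t → (fun j => z ⟨i, j⟩) ∈ Mv F (n i) t}

theorem Tup_card {ι : Type} [Fintype ι] (n : ι → ℕ) (h3 : ∀ i, 3 ≤ n i)
    (hq : ∀ i, 2 * n i + 2 ≤ Nat.card F) (T : ι → Option (Fin 3)) :
    Nat.card F ^ Fintype.card (Σ i, Fin (n i)) ≤ (∏ i, DD (n i)) * (Tup F n T).ncard := by
  haveI := Fintype.ofFinite F
  obtain ⟨A, hA⟩ : ∃ A : ∀ i, Finset (Fin (n i) → F), A = fun i =>
    match T i with
    | none => Finset.univ
    | some t => (Mv F (n i) t).toFinset := ⟨_, rfl⟩
  have h1 : (Tup F n T).ncard = ∏ i, (A i).card := by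
    rw [← Fintype.card_piFinset]
    rw [← Set.ncard_coe_finset]
    have h2 : Tup F n T = (Equiv.piCurry (fun (i : ι) (_ : Fin (n i)) => F)) ⁻¹'
        ((Fintype.piFinset A : Finset (∀ i, Fin (n i) → F)) : Set (∀ i, Fin (n i) → F)) := by
      ext z
      rw [Set.mem_preimage, Finset.mem_coe, Fintype.mem_piFinset]
      refine forall_congr' fun i => ?_
      rw [hA]
      simp only
      rcases h : T i with _ | t
      · exact ⟨fun _ => Finset.mem_univ _, fun _ t ht => by simp at ht⟩
      · rw [Set.mem_toFinset]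
        constructor
        · intro h4
          exact h4 t rfl
        · intro h4 t' ht'
          cases ht'
          exact h4
    rw [h2, Set.ncard_preimage_of_injective_subset_range (Equiv.injective _) (by simp)]
  have h2 : ∀ i, Nat.card F ^ n i ≤ DD (n i) * (A i).card := by
    intro i
    rw [hA]
    simp only
    rcases h : T i with _ | t
    · simp only
      rw [Finset.card_univ, Fintype.card_fun, Fintype.card_fin, Nat.card_eq_fintype_card]
      exact Nat.le_mul_of_pos_left _ (DD_pos (by have := h3 i; omega))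
    · simp only
      rw [← Set.ncard_eq_toFinset_card']
      exact Mv_card (h3 i) (hq i) t
  rw [h1, ← Finset.prod_mul_distrib]
  have h4 : Nat.card F ^ Fintype.card (Σ i, Fin (n i)) = ∏ i, Nat.card F ^ n i := by
    rw [Fintype.card_sigma, Finset.prod_pow_eq_pow_sum]
    simp only [Fintype.card_fin]
  rw [h4]
  exact Finset.prod_le_prod' fun i _ => h2 i

end count

end Pool.Agent.N197.Htj
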