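import Pool.Agent.X243.Gen.Aff
import Pool.Agent.N197.Htj.Cnt

/-!
The sieve for tuples of monic polynomials over a finitely generated ring.
-/

set_option autoImplicit false
set_option linter.all false

open Polynomial
open scoped Classical

namespace Pool.Agent.N197.Htj

open Pool.Agent.X243.Tate Pool.Agent.X243.Sol Pool.Agent.X243.Gen Pool.Agent.Y160.T3

/-- The conditions. -/
abbrev Sg {R : Type} (ι : Type) (U : Finset R) : Type := (ι × Fin 3) ⊕ ((ι × ι) ⊕ (ι × U))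

/-- The types of factorisation modulo `p` for each of the conditions. -/
noncomputable def TT {R : Type} [CommRing R] {ι : Type} {U : Finset R} (s : Sg ι U) (p : Ideal R)
    (i : ι) : Option (Fin 3) :=
  match s with
  | Sum.inl (i₀, t) => if i = i₀ then some t else none
  | Sum.inr (Sum.inl (i₀, j₀)) => if i = i₀ then some 0 else if i = j₀ then some 2 else none
  | Sum.inr (Sum.inr (i₀, u)) =>
      if i = i₀ then (if IsSquare (Ideal.Quotient.mk p (u : R)) then some 2 else some 0) else none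

/-- The tuples which satisfy all the conditions. -/
def Dat {R : Type} [CommRing R] {ι : Type} [Fintype ι] (n : ι → ℕ) (U : Finset R)
    (y : (Σ i, Fin (n i)) → R) : Prop :=
  ∀ s : Sg ι U, ∃ p ∈ Zc R (2 * (∑ i, n i) + 2) (∏ u ∈ U, u),
    (fun j => Ideal.Quotient.mk p (y j)) ∈ Tup (R ⧸ p) n (TT s p)

theorem dens_tup (R : Type) [CommRing R] [IsDomain R] [Algebra.FiniteType ℤ R] (hR : ¬ IsField R)
    (h2 : (2 : R) ≠ 0) {ι : Type} [Fintype ι] (n : ι → ℕ) (h3 : ∀ i, 3 ≤ n i) (U : Finset R)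
    (hU : ∀ u ∈ U, u ≠ 0) (η : ℝ) (hη : 0 < η) :
    ∃ M : Ideal R, Finite (R ⧸ M) ∧
      (1 - η) * (Nat.card (R ⧸ M) : ℝ) ^ (Fintype.card (Σ i, Fin (n i))) ≤
      (({x : (Σ i, Fin (n i)) → R ⧸ M | ∀ y : (Σ i, Fin (n i)) → R,
        (∀ j, Ideal.Quotient.mk M (y j) = x j) → Dat n U y}).ncard : ℝ) := by
  have hD : (0 : ℝ) < ((∏ i, DD (n i) : ℕ) : ℝ) := by
    have : 0 < ∏ i, DD (n i) := Finset.prod_pos fun i _ => DD_pos (by have := h3 i; omega)
    exact_mod_cast this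
  have hc : ∏ u ∈ U, u ≠ 0 := Finset.prod_ne_zero_iff.2 hU
  obtain ⟨M, hM, h⟩ := densityU (R := R) (Σ i, Fin (n i)) (Sg ι U)
    (Zc R (2 * (∑ i, n i) + 2) (∏ u ∈ U, u)) (Zc_inf R hR h2 _ hc) (fun p hp => hp.1.1)
    (fun p hp => hp.1.2.1) (c := 1 / ((∏ i, DD (n i) : ℕ) : ℝ)) (by positivity) η hη
  refine ⟨M, hM, (h (fun s p => Tup (R ⧸ p) n (TT s p)) ?_).trans ?_⟩
  · intro s p hp
    haveI := hp.1.1
    haveI : p.IsPrime := hp.1.1.isPrime
    letI : Field (R ⧸ p) := Ideal.Quotient.field p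
    haveI : Finite (R ⧸ p) := hp.1.2.1
    have hq : ∀ i, 2 * n i + 2 ≤ Nat.card (R ⧸ p) := by
      intro i
      have h1 : n i ≤ ∑ i, n i := Finset.single_le_sum (fun j _ => Nat.zero_le _) (Finset.mem_univ i)
      have h4 := hp.1.2.2.1
      omega
    have h1 := Tup_card (F := R ⧸ p) n h3 hq (TT s p)
    rw [one_div, inv_mul_le_iff₀ hD]
    exact_mod_cast h1
  · have hsub : {x : (Σ i, Fin (n i)) → R ⧸ M | ∀ s : Sg ι U,
        ∃ p ∈ Zc R (2 * (∑ i, n i) + 2) (∏ u ∈ U, u), ∀ y : (Σ i, Fin (n i)) → R,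
          (∀ j, Ideal.Quotient.mk M (y j) = x j) →
          (fun j => Ideal.Quotient.mk p (y j)) ∈ Tup (R ⧸ p) n (TT s p)} ⊆
        {x : (Σ i, Fin (n i)) → R ⧸ M | ∀ y : (Σ i, Fin (n i)) → R,
          (∀ j, Ideal.Quotient.mk M (y j) = x j) → Dat n U y} := by
      intro x hx y hy s
      obtain ⟨p, hp, h4⟩ := hx s
      exact ⟨p, hp, h4 y hy⟩
    exact_mod_cast Set.ncard_le_ncard hsub (Set.toFinite _)

end Pool.Agent.N197.Htj
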