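import Pool.Agent.N197.Htj.Main

/-!
The density theorem for tuples of monic polynomials over a finitely generated ring, with one exceptional
set for all the finite sets of square classes.
-/

set_option autoImplicit false
set_option linter.all false

namespace Pool.Agent.N197.Htj

open Polynomial Filter Topology
open Pool.Agent.X243.Gen (tendsto_of_dens)
open scoped Classical

universe w

section diag

/-- The diagonal argument. -/
theorem diag {q : ℕ → ℕ → ℝ} (h : ∀ j, Tendsto (q j) atTop (𝓝 1)) (hle : ∀ j i, q j i ≤ 1) :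
    ∃ J : ℕ → ℕ, Tendsto J atTop atTop ∧ Tendsto (fun i => q (J i) i) atTop (𝓝 1) := by
  have h1 : ∀ j : ℕ, ∃ N : ℕ, ∀ i, N ≤ i → 1 - 1 / ((j : ℝ) + 1) < q j i := by
    intro j
    have hj : (0 : ℝ) < 1 / ((j : ℝ) + 1) := by positivity
    have h3 := (tendsto_order.1 (h j)).1 (1 - 1 / ((j : ℝ) + 1)) (by linarith)
    exact eventually_atTop.1 h3
  choose N hN using h1
  obtain ⟨J, hJ⟩ : ∃ J : ℕ → ℕ, J = fun i => Nat.findGreatest (fun j => N j ≤ i) i := ⟨_, rfl⟩
  have hJ1 : Tendsto J atTop atTop := by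
    rw [tendsto_atTop]
    intro j
    filter_upwards [eventually_ge_atTop (max j (N j))] with i hi
    rw [hJ]
    exact Nat.le_findGreatest (le_trans (le_max_left _ _) hi) (le_trans (le_max_right _ _) hi)
  refine ⟨J, hJ1, ?_⟩
  have h2 : ∀ᶠ i in atTop, N (J i) ≤ i := by
    filter_upwards [eventually_ge_atTop (N 0)] with i hi
    have h3 : N (Nat.findGreatest (fun j => N j ≤ i) i) ≤ i :=
      Nat.findGreatest_spec (P := fun j => N j ≤ i) (m := 0) (Nat.zero_le _) hi
    rw [hJ]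
    exact h3
  have h4 : Tendsto (fun i => 1 - 1 / ((J i : ℝ) + 1)) atTop (𝓝 1) := by
    have h5 : Tendsto (fun i : ℕ => 1 / ((i : ℝ) + 1)) atTop (𝓝 0) :=
      tendsto_one_div_add_atTop_nhds_zero_nat
    have h6 := (tendsto_const_nhds (x := (1 : ℝ))).sub (h5.comp hJ1)
    rw [sub_zero] at h6
    exact h6
  refine tendsto_of_tendsto_of_tendsto_of_le_of_le' h4 tendsto_const_nhds ?_
    (Eventually.of_forall fun i => hle _ _)
  filter_upwards [h2] with i hi
  exact (hN (J i) i hi).le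

end diag

theorem countable_units (R k : Type) [CommRing R] [IsDomain R] [Algebra.FiniteType ℤ R] [Field k]
    [Algebra R k] [IsFractionRing R k] : Countable kˣ := by
  have h1 : Countable R := by
    obtain ⟨n, f, hf⟩ := Algebra.FiniteType.iff_quotient_mvPolynomial''.1
      (inferInstance : Algebra.FiniteType ℤ R)
    have h5 : Countable (MvPolynomial (Fin n) ℤ) := by
      rw [← Cardinal.mk_le_aleph0_iff]
      refine (MvPolynomial.cardinalMk_le_max (σ := Fin n) (R := ℤ)).trans ?_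
      simp
    exact hf.countable
  have h3 : Countable k := by
    have h4 : Function.Surjective (fun p : R × R => algebraMap R k p.1 / algebraMap R k p.2) := by
      intro x
      obtain ⟨a, s, -, h⟩ := IsFractionRing.div_surjective (A := R) x
      exact ⟨(a, s), h⟩
    exact h4.countable
  exact Function.Injective.countable (f := fun u : kˣ => (u : k)) Units.val_injective

section dens

variable (R k : Type) [CommRing R] [IsDomain R] [IsIntegrallyClosed R] [Algebra.FiniteType ℤ R]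
  [Field k] [Algebra R k] [IsFractionRing R k] {ι : Type} [Fintype ι] [Nonempty ι] (n : ι → ℕ)

/-- The monic polynomials over `k` with the coefficients `y`. -/
noncomputable def poly {R : Type} [CommRing R] (k : Type) [Field k] [Algebra R k] {ι : Type}
    {n : ι → ℕ} (y : (Σ i, Fin (n i)) → R) (i : ι) : k[X] :=
  X ^ n i + ∑ j : Fin (n i), C (algebraMap R k (y ⟨i, j⟩)) * X ^ (j : ℕ)

theorem poly_eq (y : (Σ i, Fin (n i)) → R) (i : ι) :
    poly k y i = (fR y i).map (algebraMap R k) := by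
  rw [fR, mP_map, mP_eq]
  rfl

theorem exists_UR (U : Finset kˣ) : ∃ UR : Finset R, (∀ u ∈ UR, u ≠ 0) ∧
    ∀ u ∈ U, ∃ v ∈ UR, ∃ b : k, (u : k) * algebraMap R k v = b ^ 2 := by
  have h1 : ∀ u : kˣ, ∃ v : R, v ≠ 0 ∧ ∃ b : k, (u : k) * algebraMap R k v = b ^ 2 := by
    intro u
    obtain ⟨a, s, hs, h⟩ := IsFractionRing.div_surjective (A := R) (u : k)
    have hs0 : s ≠ 0 := nonZeroDivisors.ne_zero hs
    have hs' : algebraMap R k s ≠ 0 := (map_ne_zero_iff _ (IsFractionRing.injective R k)).2 hs0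
    have ha : a ≠ 0 := by
      rintro rfl
      rw [map_zero, zero_div] at h
      exact u.ne_zero h.symm
    refine ⟨a * s, mul_ne_zero ha hs0, algebraMap R k a, ?_⟩
    rw [← h, map_mul]
    field_simp
  choose g hg0 hg using h1
  refine ⟨U.image g, fun u hu => ?_, fun u hu => ⟨g u, Finset.mem_image_of_mem g hu, hg u⟩⟩
  obtain ⟨v, -, rfl⟩ := Finset.mem_image.1 hu
  exact hg0 v

/-- The congruences. -/
theorem dens_good (hR : ¬ IsField R) (h2 : (2 : R) ≠ 0) (h7 : ∀ i, 7 ≤ n i) (ho : ∀ i, Odd (n i))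
    (U : Finset kˣ) (η : ℝ) (hη : 0 < η) :
    ∃ M : Ideal R, Finite (R ⧸ M) ∧
      (1 - η) * (Nat.card (R ⧸ M) : ℝ) ^ (Fintype.card (Σ i, Fin (n i))) ≤
      (({x : (Σ i, Fin (n i)) → R ⧸ M | ∀ y : (Σ i, Fin (n i)) → R,
        (∀ j, Ideal.Quotient.mk M (y j) = x j) → Good.{w} n U (poly k y)}).ncard : ℝ) := by
  haveI : IsNoetherianRing R := Algebra.FiniteType.isNoetherianRing ℤ R
  obtain ⟨UR, hUR, hU⟩ := exists_UR R k U
  obtain ⟨M, hM, h⟩ := dens_tup R hR h2 n (fun i => (by norm_num : 3 ≤ 7).trans (h7 i)) UR hUR η hη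
  refine ⟨M, hM, h.trans ?_⟩
  have := hM
  have hsub : {x : (Σ i, Fin (n i)) → R ⧸ M | ∀ y : (Σ i, Fin (n i)) → R,
        (∀ j, Ideal.Quotient.mk M (y j) = x j) → Dat n UR y} ⊆
      {x : (Σ i, Fin (n i)) → R ⧸ M | ∀ y : (Σ i, Fin (n i)) → R,
        (∀ j, Ideal.Quotient.mk M (y j) = x j) → Good.{w} n U (poly k y)} := by
    intro x hx y hy
    have h3 : poly k y = fun i => (fR y i).map (algebraMap R k) := funext fun i => poly_eq R k n y i
    rw [h3]
    exact good_of_dat h2 h7 ho hU (hx y hy)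
  exact_mod_cast Set.ncard_le_ncard hsub (Set.toFinite _)

theorem good_mono {U U' : Finset kˣ} (h : U ⊆ U') {f : ι → k[X]} (hf : Good.{w} n U' f) :
    Good.{w} n U f := by
  intro L F _ _ _ _ _ _ _ hA
  have hA' : Allowed L F U' f := by
    rcases hA with hA | ⟨M, hM1, hM2, hM3⟩
    · exact Or.inl hA
    · refine Or.inr ⟨M, hM1, hM2, ?_⟩
      rcases hM3 with hM3 | hM3
      · exact Or.inl hM3
      · refine Or.inr fun c hc => ?_
        obtain ⟨u, hu, hs⟩ := hM3 c hc
        exact ⟨u, h hu, hs⟩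
  obtain ⟨hyp, ω, hω, h1⟩ := hf L F hA'
  refine ⟨hyp, ω, hω, fun W _ _ τ hτ => h1 W τ ?_⟩
  obtain ⟨d, b, hb, h3⟩ := hτ
  refine ⟨d, b, hb, ?_⟩
  rcases h3 with h3 | h3 | h3
  · exact Or.inl h3
  · exact Or.inr (Or.inl h3)
  · refine Or.inr (Or.inr fun c hc => ?_)
    obtain ⟨u, hu, hs⟩ := h3 c hc
    exact ⟨u, h hu, hs⟩

/-- One exceptional set. -/
theorem lim_good (hR : ¬ IsField R) (h2 : (2 : R) ≠ 0) (h7 : ∀ i, 7 ≤ n i) (ho : ∀ i, Odd (n i))
    (B : ℕ → Finset ((Σ i, Fin (n i)) → R)) (hB : ∀ i, (B i).Nonempty)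
    (heq : ∀ M : Ideal R, Finite (R ⧸ M) → ∀ x : (Σ i, Fin (n i)) → R ⧸ M,
      Tendsto (fun i => (((B i).filter (fun y => ∀ j, Ideal.Quotient.mk M (y j) = x j)).card : ℝ) /
        ((B i).card : ℝ)) atTop
        (𝓝 (1 / (Nat.card (R ⧸ M) : ℝ) ^ (Fintype.card (Σ i, Fin (n i)))))) :
    ∃ V : ℕ → Finset kˣ, (∀ u : kˣ, ∀ᶠ i in atTop, u ∈ V i) ∧
      Tendsto (fun i => (((B i).filter (fun y => Good.{w} n (V i) (poly k y))).card : ℝ) /
        ((B i).card : ℝ)) atTop (𝓝 1) := by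
  haveI := countable_units R k
  obtain ⟨g, hg⟩ : ∃ g : ℕ → kˣ, Function.Surjective g := exists_surjective_nat _
  have hlim : ∀ j : ℕ, Tendsto (fun i => (((B i).filter
      (fun y => Good.{w} n ((Finset.range j).image g) (poly k y))).card : ℝ) / ((B i).card : ℝ))
      atTop (𝓝 1) := fun j =>
    tendsto_of_dens {y | Good.{w} n ((Finset.range j).image g) (poly k y)} (fun η hη =>
      dens_good R k n hR h2 h7 ho ((Finset.range j).image g) η hη) B hB heq
  obtain ⟨J, hJ, hJ'⟩ := diag hlim (fun j i => by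
    have h1 : (0 : ℝ) < ((B i).card : ℝ) := by exact_mod_cast (hB i).card_pos
    rw [div_le_one h1]
    exact_mod_cast Finset.card_filter_le _ _)
  refine ⟨fun i => (Finset.range (J i)).image g, fun u => ?_, hJ'⟩
  obtain ⟨m, rfl⟩ := hg u
  filter_upwards [hJ.eventually_gt_atTop m] with i hi
  exact Finset.mem_image_of_mem g (Finset.mem_range.2 hi)

end dens

end Pool.Agent.N197.Htj
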