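import Pool.Agent.X243.Gen.Main

/-!
Automorphisms of the algebraic closure of an extension field.
-/

set_option autoImplicit false
set_option linter.all false

open Polynomial
open scoped Classical

namespace Pool.Agent.N197.Htj

open Pool.Agent.X243.Tate Pool.Agent.X243.Sol Pool.Agent.X243.Gen

section lift

variable {k L F : Type} [Field k] [Field L] [Field F] [Algebra k L] [Algebra L F] [Algebra k F]
  [IsScalarTower k L F]

/-- The elements which fix `M ∩ E` extend to the algebraic closure. -/
theorem lift_F [IsAlgClosure L F] (E : Type) [Field E] [Algebra k E] [FiniteDimensional k E]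
    [IsGalois k E] [Algebra E F] [IsScalarTower k E F] (M : IntermediateField k F)
    (hM : ∀ x : L, IsSeparable k x → algebraMap L F x ∈ M) {σ : E ≃ₐ[k] E}
    (hσ : ∀ x : E, algebraMap E F x ∈ M → σ x = x) :
    ∃ g : F ≃ₐ[L] F, ∀ x : E, g (algebraMap E F x) = algebraMap E F (σ x) := by
  haveI : IsAlgClosed F := IsAlgClosure.isAlgClosed L
  haveI : Algebra.IsAlgebraic L F := IsAlgClosure.isAlgebraic
  haveI : Normal L F := IsAlgClosure.normal L F
  haveI : IsGalois L (separableClosure L F) := inferInstance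
  have hmem : ∀ x : E, algebraMap E F x ∈ separableClosure L F := by
    intro x
    rw [mem_separableClosure_iff]
    apply IsSeparable.tower_top (F := k)
    exact (Algebra.IsSeparable.isSeparable k x).map (IsScalarTower.toAlgHom k E F)
      (algebraMap E F).injective
  haveI : IsScalarTower k (separableClosure L F) F := IsScalarTower.of_algebraMap_eq fun x => by
    rw [IsScalarTower.algebraMap_apply k L F, IsScalarTower.algebraMap_apply k L (separableClosure L F)]
    rfl
  let i : E →+* separableClosure L F := (algebraMap E F).codRestrict _ hmem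
  letI : Algebra E (separableClosure L F) := i.toAlgebra
  haveI : IsScalarTower k E (separableClosure L F) := IsScalarTower.of_algebraMap_eq fun x => by
    apply Subtype.ext
    show algebraMap k F x = algebraMap E F (algebraMap k E x)
    rw [← IsScalarTower.algebraMap_apply]
  obtain ⟨g, hg⟩ := lift_fix' (k := k) (E := E) (L := L) (L' := separableClosure L F)
    (M.comap (IsScalarTower.toAlgHom k (separableClosure L F) F)) (fun x hx => hM x hx) (σ := σ) (by
      rw [IntermediateField.mem_fixingSubgroup_iff]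
      intro x hx
      exact hσ x hx)
  refine ⟨g.liftNormal F, fun x => ?_⟩
  have h1 := AlgEquiv.liftNormal_commutes g F (algebraMap E (separableClosure L F) x)
  rw [hg] at h1
  exact h1

/-- A finite Galois extension in an algebraically closed field. -/
theorem exists_gal (k F : Type) [Field k] [Field F] [Algebra k F] [IsAlgClosed F] {P : k[X]}
    (hsep : ∀ x : F, aeval x P = 0 → IsSeparable k x) :
    ∃ (E : Type) (_ : Field E) (_ : Algebra k E) (_ : Algebra E F) (_ : IsScalarTower k E F),
      FiniteDimensional k E ∧ IsGalois k E ∧ (P.map (algebraMap k E)).Splits := by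
  have hspl : (P.map (algebraMap k F)).Splits := IsAlgClosed.splits _
  haveI h1 := IntermediateField.adjoin_rootSet_isSplittingField hspl
  refine ⟨IntermediateField.adjoin k (P.rootSet F), inferInstance, inferInstance, inferInstance,
    inferInstance, IsSplittingField.finiteDimensional _ P, ?_, h1.splits⟩
  haveI : Normal k (IntermediateField.adjoin k (P.rootSet F)) := Normal.of_isSplittingField P
  haveI : Algebra.IsSeparable k (IntermediateField.adjoin k (P.rootSet F)) :=
    (IntermediateField.isSeparable_adjoin_iff_isSeparable k F).2 fun x hx =>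
      hsep x (aeval_eq_zero_of_mem_rootSet hx)
  exact {}

theorem sep_root {k F : Type} [Field k] [Field F] [Algebra k F] {f : k[X]} (hf : f.Separable)
    {x : F} (hx : aeval x f = 0) : IsSeparable k x :=
  hf.of_dvd (minpoly.dvd k x hx)

end lift

section big

variable {k L F : Type} [Field k] [Field L] [Field F] [Algebra k L] [Algebra L F] [Algebra k F]
  [IsScalarTower k L F]

theorem mem_rs {f : k[X]} (hf : f ≠ 0) (x : F) :
    x ∈ (f.map (algebraMap k L)).rootSet F ↔ aeval x f = 0 := by
  rw [mem_rootSet, aeval_map_algebraMap]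
  exact ⟨fun h => h.2, fun h => ⟨(Polynomial.map_ne_zero_iff (algebraMap k L).injective).2 hf, h⟩⟩

theorem mem_rs' {f : k[X]} (hf : f ≠ 0) {E : Type} [Field E] [Algebra k E] [Algebra E F]
    [IsScalarTower k E F] (x : E) : x ∈ f.rootSet E ↔ aeval (algebraMap E F x) f = 0 := by
  rw [mem_rootSet, aeval_algebraMap_apply, map_eq_zero_iff _ (algebraMap E F).injective]
  exact ⟨fun h => h.2, fun h => ⟨hf, h⟩⟩

theorem root_mem {f : k[X]} {E : Type} [Field E] [Algebra k E] [Algebra E F]
    [IsScalarTower k E F] (hf : f ≠ 0) (hs : (f.map (algebraMap k E)).Splits) {x : F}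
    (hx : aeval x f = 0) : ∃ θ ∈ f.rootSet E, algebraMap E F θ = x := by
  have h1 : x ∈ f.rootSet F := mem_rootSet.2 ⟨hf, hx⟩
  rw [← hs.image_rootSet_algebraMap (B := F)] at h1
  exact h1

/-- The roots in a finite Galois extension and in the algebraic closure. -/
theorem rs_equiv (L : Type) [Field L] [Algebra k L] [Algebra L F] [IsScalarTower k L F]
    {f : k[X]} (hf : f ≠ 0) {E : Type} [Field E] [Algebra k E] [Algebra E F]
    [IsScalarTower k E F] (hs : (f.map (algebraMap k E)).Splits) :
    ∃ e : f.rootSet E ≃ (f.map (algebraMap k L)).rootSet F,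
      ∀ x : f.rootSet E, (e x : F) = algebraMap E F (x : E) := by
  refine ⟨Equiv.ofBijective (fun x => ⟨algebraMap E F (x : E),
    (mem_rs hf _).2 ((mem_rs' hf _).1 x.2)⟩) ⟨fun x x' h => ?_, fun z => ?_⟩, fun x => rfl⟩
  · apply Subtype.ext
    exact (algebraMap E F).injective (congrArg Subtype.val h)
  · obtain ⟨θ, hθ, h⟩ := root_mem hf hs ((mem_rs hf _).1 z.2)
    exact ⟨⟨θ, hθ⟩, Subtype.ext h⟩

variable [IsAlgClosure L F]

/-- The even permutations of the roots are induced by automorphisms over `L`. -/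
theorem big_L {f : k[X]} (hsep : f.Separable) (h5 : 5 ≤ f.natDegree) (hfull : FullG f)
    (M : IntermediateField k F) [Normal k M]
    (hM : ∀ x : L, IsSeparable k x → algebraMap L F x ∈ M)
    (hns : ¬ (f.map (algebraMap k M)).Splits)
    (π : Equiv.Perm ((f.map (algebraMap k L)).rootSet F)) (hπ : Equiv.Perm.sign π = 1) :
    ∃ s : F ≃ₐ[L] F, ∀ x : (f.map (algebraMap k L)).rootSet F, s (x : F) = (π x : F) := by
  haveI : IsAlgClosed F := IsAlgClosure.isAlgClosed L
  obtain ⟨E, _, _, _, _, _, _, hs⟩ := exists_gal k F (P := f) fun x hx => sep_root hsep hx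
  have hf := hsep.ne_zero
  obtain ⟨e, he⟩ := rs_equiv (F := F) L hf hs
  have hcard : Nat.card (f.rootSet E) = f.natDegree := by
    rw [Nat.card_eq_fintype_card, card_rootSet_eq_natDegree hsep hs]
  obtain ⟨σ, hσ, hc⟩ := even_fix (F := f) (E := E) (L' := F) hs (hfull E hs)
    (by rw [hcard]; exact h5) M hns ((e.trans π).trans e.symm) (by
      rw [Equiv.Perm.mem_alternatingGroup, Equiv.Perm.sign_trans_trans_symm]
      exact hπ)
  obtain ⟨g, hg⟩ := lift_F (L := L) E M hM (σ := σ) (fun x hx => by
    rw [IntermediateField.mem_fixingSubgroup_iff] at hσ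
    exact hσ x hx)
  refine ⟨g, fun x => ?_⟩
  have h1 := hg (e.symm x : f.rootSet E)
  have h2 : σ ((e.symm x : f.rootSet E) : E) = (e.symm (π x) : f.rootSet E) := by
    have h3 := congrArg (fun p : Equiv.Perm (f.rootSet E) => ((p (e.symm x) : f.rootSet E) : E)) hc
    simp only [Equiv.trans_apply, Equiv.apply_symm_apply] at h3
    exact h3
  rw [h2] at h1
  have h4 : ∀ z : (f.map (algebraMap k L)).rootSet F,
      algebraMap E F ((e.symm z : f.rootSet E) : E) = z := by
    intro z
    have h5 := he (e.symm z)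
    rw [Equiv.apply_symm_apply] at h5
    exact h5.symm
  rw [h4, h4] at h1
  exact h1

/-- An element which fixes the roots of `f₂` and moves a root of `f₁`. -/
theorem notIn_L {f₁ f₂ : k[X]} (hsep₁ : f₁.Separable) (hsep₂ : f₂.Separable)
    (h5 : 5 ≤ f₁.natDegree) (hfull : FullG f₁) (M : IntermediateField k F) [Normal k M]
    (hM : ∀ x : L, IsSeparable k x → algebraMap L F x ∈ M)
    (hns : ¬ (f₁.map (algebraMap k M)).Splits)
    (hex : ∀ (E : Type) [Field E] [Algebra k E] [FiniteDimensional k E] [IsGalois k E],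
      (f₁.map (algebraMap k E)).Splits → (f₂.map (algebraMap k E)).Splits →
      ∃ σ : E ≃ₐ[k] E, (∀ θ ∈ f₂.rootSet E, σ θ = θ) ∧ ∀ θ ∈ f₁.rootSet E, σ θ ≠ θ) :
    ∃ s : F ≃ₐ[L] F, (∀ x ∈ (f₂.map (algebraMap k L)).rootSet F, s x = x) ∧
      ∃ x ∈ (f₁.map (algebraMap k L)).rootSet F, s x ≠ x := by
  haveI : IsAlgClosed F := IsAlgClosure.isAlgClosed L
  have hf₁ := hsep₁.ne_zero
  have hf₂ := hsep₂.ne_zero
  obtain ⟨E, _, _, _, _, _, _, hs⟩ := exists_gal k F (P := f₁ * f₂) (fun x hx => by
    rw [map_mul, mul_eq_zero] at hx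
    rcases hx with hx | hx
    · exact sep_root hsep₁ hx
    · exact sep_root hsep₂ hx)
  have hne : (f₁ * f₂).map (algebraMap k E) ≠ 0 :=
    (Polynomial.map_ne_zero_iff (algebraMap k E).injective).2 (mul_ne_zero hf₁ hf₂)
  have hs₁ : (f₁.map (algebraMap k E)).Splits := hs.of_dvd hne
    (by rw [Polynomial.map_mul]; exact dvd_mul_right _ _)
  have hs₂ : (f₂.map (algebraMap k E)).Splits := hs.of_dvd hne
    (by rw [Polynomial.map_mul]; exact dvd_mul_left _ _)
  obtain ⟨σ, hσ₂, hσ₁⟩ := hex E hs₁ hs₂
  have hcard : Nat.card (f₁.rootSet E) = f₁.natDegree := by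
    rw [Nat.card_eq_fintype_card, card_rootSet_eq_natDegree hsep₁ hs₁]
  -- two different roots
  obtain ⟨π, hπ⟩ : ∃ π, π = MulAction.toPermHom (E ≃ₐ[k] E) (f₁.rootSet E) σ := ⟨_, rfl⟩
  obtain ⟨a⟩ : Nonempty (f₁.rootSet E) := by
    rw [← Fintype.card_pos_iff, ← Nat.card_eq_fintype_card, hcard]
    omega
  obtain ⟨b, hb⟩ : ∃ b, b = π a := ⟨_, rfl⟩
  have hba : b ≠ a := by
    intro h
    apply hσ₁ a a.2
    rw [hb, hπ] at h
    exact congrArg Subtype.val h
  obtain ⟨x, hxa, hxb⟩ : ∃ x : f₁.rootSet E, x ≠ a ∧ x ≠ b := by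
    by_contra hall
    push Not at hall
    have h4 : (Finset.univ : Finset (f₁.rootSet E)) ⊆ {a, b} := by
      intro z _
      rw [Finset.mem_insert, Finset.mem_singleton]
      by_cases hz : z = a
      · exact Or.inl hz
      · exact Or.inr (hall z hz)
    have h5' := Finset.card_le_card h4
    have h6 := Finset.card_le_two (a := a) (b := b)
    rw [Finset.card_univ, ← Nat.card_eq_fintype_card, hcard] at h5'
    omega
  obtain ⟨z, hza, hzb, hzx⟩ : ∃ z : f₁.rootSet E, z ≠ a ∧ z ≠ b ∧ z ≠ x := by
    by_contra hall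
    push Not at hall
    have h4 : (Finset.univ : Finset (f₁.rootSet E)) ⊆ {a, b, x} := by
      intro z _
      rw [Finset.mem_insert, Finset.mem_insert, Finset.mem_singleton]
      by_cases hz : z = a
      · exact Or.inl hz
      · by_cases hz' : z = b
        · exact Or.inr (Or.inl hz')
        · exact Or.inr (Or.inr (hall z hz hz'))
    have h5' := Finset.card_le_card h4
    have h6 := Finset.card_le_three (a := a) (b := b) (c := x)
    rw [Finset.card_univ, ← Nat.card_eq_fintype_card, hcard] at h5'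
    omega
  obtain ⟨c, hc⟩ : ∃ c, c = Equiv.swap b x * Equiv.swap x z := ⟨_, rfl⟩
  have hca : c a = a := by
    rw [hc, Equiv.Perm.mul_apply, Equiv.swap_apply_of_ne_of_ne hxa.symm hza.symm,
      Equiv.swap_apply_of_ne_of_ne hba.symm hxa.symm]
  have hcb : c b ≠ b := by
    rw [hc, Equiv.Perm.mul_apply, Equiv.swap_apply_of_ne_of_ne hxb.symm hzb.symm,
      Equiv.swap_apply_left]
    exact hxb
  obtain ⟨τ, hτ, hτc⟩ := even_fix (F := f₁) (E := E) (L' := F) hs₁ (hfull E hs₁)
    (by rw [hcard]; exact h5) M hns c (by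
      rw [hc]
      exact Equiv.Perm.mul_mem_alternatingGroup_of_isSwap ⟨b, x, hxb.symm, rfl⟩
        ⟨x, z, hzx.symm, rfl⟩)
  -- the commutator
  have hmem : τ * (σ * τ⁻¹ * σ⁻¹) ∈ (ME E M).fixingSubgroup :=
    Subgroup.mul_mem _ hτ ((ME_normal (E := E) M).conj_mem _ (Subgroup.inv_mem _ hτ) σ)
  obtain ⟨g, hg⟩ := lift_F (L := L) E M hM (σ := τ * (σ * τ⁻¹ * σ⁻¹)) (fun x hx => by
    rw [IntermediateField.mem_fixingSubgroup_iff] at hmem
    exact hmem x hx)
  have hτa : τ (a : E) = a := by
    have h1 := congrArg (fun p : Equiv.Perm (f₁.rootSet E) => ((p a : f₁.rootSet E) : E)) hτc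
    simp only [hca] at h1
    exact h1
  have hσa : σ (a : E) = b := by
    rw [hb, hπ]
    rfl
  have hτb : τ (b : E) ≠ b := by
    intro h
    apply hcb
    have h1 := congrArg (fun p : Equiv.Perm (f₁.rootSet E) => ((p b : f₁.rootSet E) : E)) hτc
    apply Subtype.ext
    rw [← h1]
    exact h
  refine ⟨g, fun x hx => ?_, algebraMap E F (b : E), (mem_rs hf₁ _).2 ((mem_rs' hf₁ _).1 b.2), ?_⟩
  · rw [mem_rs hf₂] at hx
    obtain ⟨w, hx', rfl⟩ := root_mem (E := E) hf₂ hs₂ hx
    have h1 := hg w
    have h2 : σ⁻¹ w = w := by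
      have h3 := hσ₂ _ hx'
      show σ.symm _ = _
      rw [AlgEquiv.symm_apply_eq, h3]
    have hx'' : τ⁻¹ w ∈ f₂.rootSet E := by
      rw [mem_rootSet] at hx' ⊢
      refine ⟨hx'.1, ?_⟩
      rw [aeval_algHom_apply τ⁻¹ w, hx'.2, map_zero]
    have h3 : (τ * (σ * τ⁻¹ * σ⁻¹)) w = w := by
      rw [AlgEquiv.mul_apply, AlgEquiv.mul_apply, AlgEquiv.mul_apply, h2, hσ₂ _ hx'']
      show τ (τ.symm _) = _
      rw [AlgEquiv.apply_symm_apply]
    rw [h3] at h1
    exact h1
  · intro h
    have h1 := hg b
    have h2 : (τ * (σ * τ⁻¹ * σ⁻¹)) (b : E) = τ b := by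
      rw [AlgEquiv.mul_apply, AlgEquiv.mul_apply, AlgEquiv.mul_apply]
      have h3 : σ⁻¹ (b : E) = a := by
        show σ.symm _ = _
        rw [AlgEquiv.symm_apply_eq, hσa]
      have h4 : τ⁻¹ (a : E) = a := by
        show τ.symm _ = _
        rw [AlgEquiv.symm_apply_eq, hτa]
      rw [h3, h4, hσa]
    rw [h2] at h1
    apply hτb
    exact (algebraMap E F).injective (h1.symm.trans h)

end big

section solv

variable {G α : Type} [Group G] [Fintype α] [DecidableEq α]

/-- The derived series of a group which induces all the even permutations. -/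
theorem derived_big (φ : G →* Equiv.Perm α) (h5 : 5 ≤ Nat.card α)
    (h : alternatingGroup α ≤ φ.range) (m : ℕ) :
    alternatingGroup α ≤ (derivedSeries G m).map φ := by
  induction m with
  | zero =>
    rw [derivedSeries_zero, ← MonoidHom.range_eq_map]
    exact h
  | succ m ih =>
    rw [derivedSeries_succ, Subgroup.map_commutator]
    rw [← commutator_alternatingGroup_eq_self h5]
    exact Subgroup.commutator_mono ih ih

end solv

end Pool.Agent.N197.Htj
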