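import Pool.Agent.N197.Htj.Gal
import Pool.Agent.N197.Htj.Ext

/-!
The square roots of the discriminants.
-/

set_option autoImplicit false
set_option linter.all false

open Polynomial
open scoped Classical

namespace Pool.Agent.N197.Htj

open Pool.Agent.X243.Tate Pool.Agent.X243.Sol Pool.Agent.X243.Gen

/-- The product of the differences. -/
noncomputable def vd {E : Type} [CommRing E] {N : ℕ} (v : Fin N → E) : E :=
  (Matrix.vandermonde v).det

theorem vd_map {E E' : Type} [CommRing E] [CommRing E'] (g : E →+* E') {N : ℕ} (v : Fin N → E) :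
    g (vd v) = vd (fun a => g (v a)) := by
  rw [vd, vd, RingHom.map_det]
  congr 1
  ext a b
  simp only [RingHom.mapMatrix_apply, Matrix.map_apply, Matrix.vandermonde_apply, map_pow]

theorem vd_ne {E : Type} [Field E] {N : ℕ} {v : Fin N → E} (hv : Function.Injective v) :
    vd v ≠ 0 := Matrix.det_vandermonde_ne_zero_iff.2 hv

theorem vd_perm {E : Type} [CommRing E] {N : ℕ} (v : Fin N → E) (π : Equiv.Perm (Fin N)) :
    vd (fun a => v (π a)) = ((Equiv.Perm.sign π : ℤˣ) : ℤ) * vd v := by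
  rw [vd, vd, ← Matrix.det_permute]
  congr 1

section act

variable {k E : Type} [Field k] [Field E] [Algebra k E] {f : k[X]}

theorem vd_act {N : ℕ} (e : Fin N ≃ f.rootSet E) (g : E ≃ₐ[k] E) :
    g (vd (fun a => (e a : E))) =
      ((Equiv.Perm.sign (MulAction.toPermHom (E ≃ₐ[k] E) (f.rootSet E) g) : ℤˣ) : ℤ) *
        vd (fun a => (e a : E)) := by
  have h1 := vd_map (g : E →+* E) (fun a => (e a : E))
  obtain ⟨π, hπ⟩ : ∃ π : Equiv.Perm (Fin N), π =
      (e.trans (MulAction.toPermHom (E ≃ₐ[k] E) (f.rootSet E) g)).trans e.symm := ⟨_, rfl⟩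
  have h2 : (fun a => (g : E →+* E) (e a : E)) = fun a => (e (π a) : E) := by
    funext a
    rw [hπ, Equiv.trans_apply, Equiv.trans_apply, Equiv.apply_symm_apply]
    rfl
  have h3 : Equiv.Perm.sign π =
      Equiv.Perm.sign (MulAction.toPermHom (E ≃ₐ[k] E) (f.rootSet E) g) := by
    rw [hπ, Equiv.Perm.sign_trans_trans_symm]
  rw [h2] at h1
  have h4 := vd_perm (fun a => (e a : E)) π
  rw [h3] at h4
  rw [← h4]
  exact h1

theorem vd_sq [FiniteDimensional k E] [IsGalois k E] {N : ℕ} (e : Fin N ≃ f.rootSet E) :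
    ∃ d : k, algebraMap k E d = vd (fun a => (e a : E)) ^ 2 := by
  have h1 : vd (fun a => (e a : E)) ^ 2 ∈ Set.range (algebraMap k E) := by
    rw [IsGalois.mem_range_algebraMap_iff_fixed]
    intro g
    rw [map_pow, vd_act, mul_pow]
    rcases Int.units_eq_one_or
      (Equiv.Perm.sign (MulAction.toPermHom (E ≃ₐ[k] E) (f.rootSet E) g)) with h | h
    · rw [h]; simp
    · rw [h]; simp
  exact h1

end act

section quad

variable {R k : Type} [CommRing R] [IsDomain R] [IsIntegrallyClosed R] [IsNoetherianRing R]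
  [Field k] [Algebra R k] [IsFractionRing R k] {ι : Type} [Fintype ι] {n : ι → ℕ} {U : Finset R}
  {y : (Σ i, Fin (n i)) → R}

/-- The discriminants are not in the given classes modulo squares. -/
theorem quad_E (h2 : (2 : R) ≠ 0) (h3 : ∀ i, 3 ≤ n i) (ho : ∀ i, Odd (n i)) (hy : Dat n U y)
    (i : ι) {u : R} (hu : u ∈ U)
    (E : Type) [Field E] [Algebra k E] [FiniteDimensional k E] [IsGalois k E]
    (hi : (((fR y i).map (algebraMap R k)).map (algebraMap k E)).Splits) {η : E}
    (hη : η ^ 2 = algebraMap k E (algebraMap R k u)) {N : ℕ}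
    (e : Fin N ≃ ((fR y i).map (algebraMap R k)).rootSet E) (c : k) :
    (vd (fun a => (e a : E)) * η) ^ 2 ≠ algebraMap k E c ^ 2 := by
  intro h
  obtain ⟨σ, hσ⟩ := sqrt_frob h2 h3 ho hy i hu E hi hη
  obtain ⟨δ, hδ⟩ : ∃ δ, δ = vd (fun a => (e a : E)) := ⟨_, rfl⟩
  have h2k : (2 : k) ≠ 0 := by
    rw [← map_ofNat (algebraMap R k) 2]
    exact (map_ne_zero_iff _ (IsFractionRing.injective R k)).2 h2
  have h2E : (2 : E) ≠ 0 := by
    rw [← map_ofNat (algebraMap k E) 2]
    exact (map_ne_zero_iff _ (algebraMap k E).injective).2 h2k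
  have hδ0 : δ ≠ 0 := by
    rw [hδ]
    exact vd_ne fun a b hab => e.injective (Subtype.ext hab)
  have hη0 : η ≠ 0 := by
    rintro rfl
    rw [zero_pow two_ne_zero] at hη
    have h4 := (map_eq_zero_iff _ (algebraMap k E).injective).1 hη.symm
    have h5 := (map_eq_zero_iff _ (IsFractionRing.injective R k)).1 h4
    obtain ⟨p, hp, -⟩ := hy (Sum.inr (Sum.inr (i, ⟨u, hu⟩)))
    apply hp.2
    rw [← Finset.mul_prod_erase _ _ hu, h5, zero_mul]
    exact p.zero_mem
  have hact := vd_act e σ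
  rw [← hδ] at h hact
  have hneg : σ (δ * η) = -(δ * η) := by
    rw [map_mul, hact]
    rcases hσ with ⟨s1, s2⟩ | ⟨s1, s2⟩
    · rw [s1, s2]
      push_cast
      ring
    · rw [s1, s2]
      push_cast
      ring
  have hfix : σ (δ * η) = δ * η := by
    rcases sq_eq_sq_iff_eq_or_eq_neg.1 h with h4 | h4
    · rw [h4, σ.commutes]
    · rw [h4, map_neg, σ.commutes]
  rw [hneg] at hfix
  have h5 : (2 : E) * (δ * η) = 0 := by linear_combination -hfix
  rcases mul_eq_zero.1 h5 with h6 | h6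
  · exact h2E h6
  · rcases mul_eq_zero.1 h6 with h7 | h7
    · exact hδ0 h7
    · exact hη0 h7

theorem vd_mem {F : Type} [CommRing F] (T : Subring F) {N : ℕ} {v : Fin N → F} (hv : ∀ a, v a ∈ T) :
    vd v ∈ T := by
  have h1 := vd_map T.subtype (fun a => (⟨v a, hv a⟩ : T))
  have h2 : (fun a => T.subtype (⟨v a, hv a⟩ : T)) = v := rfl
  rw [h2] at h1
  rw [← h1]
  exact (vd fun a => (⟨v a, hv a⟩ : T)).2

/-- If all the roots are in `T` then the square roots of some element, which is not in the given classes,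
are in `T`. -/
theorem quad_T (h2 : (2 : R) ≠ 0) (h3 : ∀ i, 3 ≤ n i) (ho : ∀ i, Odd (n i)) (hy : Dat n U y)
    (i : ι) {F : Type} [Field F] [Algebra k F] [IsAlgClosed F] (T : Subring F)
    (hT : ∀ x, aeval x ((fR y i).map (algebraMap R k)) = 0 → x ∈ T) :
    ∃ c : k, c ≠ 0 ∧ (∀ δ : F, δ ^ 2 = algebraMap k F c → δ ∈ T) ∧
      (∃ δ : F, δ ^ 2 = algebraMap k F c ∧ δ ∈ T) ∧
      ∀ u ∈ U, ∀ b : k, c * algebraMap R k u ≠ b ^ 2 := by
  have hFF := FF_of (k := k) h3 hy i
  obtain ⟨f, hf⟩ : ∃ f, f = (fR y i).map (algebraMap R k) := ⟨_, rfl⟩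
  rw [← hf] at hFF hT
  have hsep := hFF.2.1
  have hinj : Function.Injective (algebraMap R k) := IsFractionRing.injective R k
  have h2k : (2 : k) ≠ 0 := by
    rw [← map_ofNat (algebraMap R k) 2]
    exact (map_ne_zero_iff _ hinj).2 h2
  obtain ⟨E₀, _, _, _, _, _, _, hs₀⟩ := exists_gal k F (P := f) fun x hx => sep_root hsep hx
  obtain ⟨N, hN⟩ : ∃ N, N = Fintype.card (f.rootSet E₀) := ⟨_, rfl⟩
  obtain ⟨e₀⟩ : Nonempty (Fin N ≃ f.rootSet E₀) := ⟨(Fintype.equivFinOfCardEq hN.symm).symm⟩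
  obtain ⟨d, hd⟩ := vd_sq e₀
  have hd0 : d ≠ 0 := by
    rintro rfl
    rw [map_zero] at hd
    exact vd_ne (fun a b hab => e₀.injective (Subtype.ext hab)) (pow_eq_zero_iff two_ne_zero |>.1 hd.symm)
  have hdF : (vd (fun a => algebraMap E₀ F (e₀ a : E₀))) ^ 2 = algebraMap k F d := by
    have h4 := congrArg (algebraMap E₀ F) hd
    rw [map_pow, vd_map, ← IsScalarTower.algebraMap_apply] at h4
    exact h4.symm
  have hmem : vd (fun a => algebraMap E₀ F (e₀ a : E₀)) ∈ T := vd_mem T fun a =>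
    hT _ ((mem_rs' hsep.ne_zero (e₀ a : E₀)).1 (e₀ a).2)
  refine ⟨d, hd0, fun δ hδ => ?_, ⟨_, hdF, hmem⟩, fun u hu b hb => ?_⟩
  · rw [← hdF] at hδ
    rcases sq_eq_sq_iff_eq_or_eq_neg.1 hδ with h5 | h5
    · rw [h5]; exact hmem
    · rw [h5]; exact T.neg_mem hmem
  have hup : u ≠ 0 := by
    rintro rfl
    obtain ⟨p, hp, -⟩ := hy (Sum.inr (Sum.inr (i, ⟨0, hu⟩)))
    apply hp.2
    rw [← Finset.mul_prod_erase _ _ hu, zero_mul]
    exact p.zero_mem
  have huk : algebraMap R k u ≠ 0 := (map_ne_zero_iff _ hinj).2 hup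
  -- a larger Galois extension
  obtain ⟨E, _, _, _, _, _, _, hs⟩ := exists_gal k F (P := f * (X ^ 2 - C (algebraMap R k u))) (fun x hx => by
    rw [map_mul, mul_eq_zero] at hx
    rcases hx with hx | hx
    · exact sep_root hsep hx
    · exact sep_root (separable_X_pow_sub_C _ (by exact_mod_cast h2k) huk) hx)
  have hg0 : (X ^ 2 - C (algebraMap R k u) : k[X]) ≠ 0 := by
    intro h4
    have h5 := congrArg natDegree h4
    rw [natDegree_sub_C, natDegree_X_pow, natDegree_zero] at h5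
    omega
  have hne : (f * (X ^ 2 - C (algebraMap R k u))).map (algebraMap k E) ≠ 0 :=
    (Polynomial.map_ne_zero_iff (algebraMap k E).injective).2 (mul_ne_zero hsep.ne_zero hg0)
  have hs₁ : (f.map (algebraMap k E)).Splits := hs.of_dvd hne
    (by rw [Polynomial.map_mul]; exact dvd_mul_right _ _)
  have hs₂ : ((X ^ 2 - C (algebraMap R k u) : k[X]).map (algebraMap k E)).Splits := hs.of_dvd hne
    (by rw [Polynomial.map_mul]; exact dvd_mul_left _ _)
  obtain ⟨η, hη⟩ : ∃ η : E, η ^ 2 = algebraMap k E (algebraMap R k u) := by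
    obtain ⟨η, hη⟩ := hs₂.exists_eval_eq_zero (by
      intro h4
      have h5 : ((X ^ 2 - C (algebraMap R k u) : k[X]).map (algebraMap k E)).natDegree = 0 :=
        natDegree_eq_of_degree_eq_some h4
      rw [natDegree_map, natDegree_sub_C, natDegree_X_pow] at h5
      omega)
    refine ⟨η, ?_⟩
    rw [eval_map_algebraMap, map_sub, map_pow, aeval_X, aeval_C, sub_eq_zero] at hη
    exact hη
  have hcE : Fintype.card (f.rootSet E) = N := by
    rw [hN, card_rootSet_eq_natDegree hsep hs₁, card_rootSet_eq_natDegree hsep hs₀]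
  obtain ⟨e, he⟩ : ∃ e : Fin N ≃ f.rootSet E, ∀ a,
      algebraMap E F (e a : E) = algebraMap E₀ F (e₀ a : E₀) := by
    have hex : ∀ x : f.rootSet E₀, ∃ θ ∈ f.rootSet E, algebraMap E F θ = algebraMap E₀ F (x : E₀) :=
      fun x => root_mem hsep.ne_zero hs₁ ((mem_rs' hsep.ne_zero _).1 x.2)
    choose q hq1 hq2 using hex
    have hq : Function.Injective (fun x => (⟨q x, hq1 x⟩ : f.rootSet E)) := by
      intro x x' h4
      apply Subtype.ext
      apply (algebraMap E₀ F).injective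
      rw [← hq2, ← hq2]
      exact congrArg (fun t : f.rootSet E => algebraMap E F (t : E)) h4
    have hq' := (Fintype.bijective_iff_injective_and_card _).2
      ⟨hq, by rw [hcE, hN]⟩
    exact ⟨e₀.trans (Equiv.ofBijective _ hq'), fun a => hq2 _⟩
  subst hf
  apply quad_E h2 h3 ho hy i hu E hs₁ hη e b
  apply (algebraMap E F).injective
  have e1 : algebraMap E F (vd (fun a => (e a : E))) ^ 2 = algebraMap k F d := by
    rw [vd_map, ← hdF]
    congr 1
    exact congrArg vd (funext he)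
  have e2 : algebraMap E F η ^ 2 = algebraMap k F (algebraMap R k u) := by
    rw [← map_pow, hη, ← IsScalarTower.algebraMap_apply k E F]
  have e3 : algebraMap E F (algebraMap k E b) = algebraMap k F b :=
    (IsScalarTower.algebraMap_apply k E F b).symm
  rw [map_pow, map_mul, mul_pow, e1, e2, map_pow, e3, ← map_mul, hb, map_pow]

/-- If the automorphisms in `S` fix the square roots in `F` of a discriminant then they do not fix all
the roots, or the discriminant is in one of the classes. -/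
theorem quad_F (h2 : (2 : R) ≠ 0) (h3 : ∀ i, 3 ≤ n i) (ho : ∀ i, Odd (n i)) (hy : Dat n U y)
    (i : ι) {F : Type} [Field F] [Algebra k F] [IsAlgClosed F] (S : Set (F →+* F))
    (hS : ∀ s ∈ S, ∀ x, aeval x ((fR y i).map (algebraMap R k)) = 0 → s x = x)
    (hU : ∀ (c : k), c ≠ 0 → (∀ δ : F, δ ^ 2 = algebraMap k F c → ∀ s ∈ S, s δ = δ) →
      ∃ u ∈ U, ∃ b : k, c * algebraMap R k u = b ^ 2) : False := by
  obtain ⟨T, hT⟩ : ∃ T : Subring F, ∀ x, x ∈ T ↔ ∀ s ∈ S, s x = x :=
    ⟨⨅ s ∈ S, RingHom.eqLocus s (RingHom.id F), fun x => by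
      simp only [Subring.mem_iInf]
      rfl⟩
  obtain ⟨c, hc, h4, -, h5⟩ := quad_T (k := k) h2 h3 ho hy i T fun x hx => (hT x).2 fun s hs => hS s hs x hx
  obtain ⟨u, hu, b, hb⟩ := hU c hc fun δ hδ => (hT δ).1 (h4 δ hδ)
  exact h5 u hu b hb

end quad

end Pool.Agent.N197.Htj
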