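import Pool.Agent.N197.Htj.Dens2

/-!
Finiteness of the square classes which become trivial in a finite extension, or in the extension
defined by a representation modulo two.
-/

set_option autoImplicit false
set_option linter.all false

namespace Pool.Agent.N197.Htj

open Polynomial Filter Topology Pool.Agent.N171
open scoped Classical

universe w

/-- Finitely many types give finitely many classes. -/
theorem classes_finite {k : Type} [Field k] {X : Type} [Finite X] (P : kˣ → Prop) (Φ : kˣ → X)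
    (T : Finset kˣ) (h : ∀ c c' : kˣ, P c → P c' → Φ c = Φ c' → ∃ u ∈ T, IsSquare (c * c' * u)) :
    ∃ U : Finset kˣ, ∀ c : kˣ, P c → ∃ u ∈ U, IsSquare (c * u) := by
  haveI := Fintype.ofFinite X
  obtain ⟨r, hr⟩ : ∃ r : X → kˣ, ∀ c : kˣ, P c → P (r (Φ c)) ∧ Φ (r (Φ c)) = Φ c := by
    refine ⟨fun x => if h : ∃ c, P c ∧ Φ c = x then h.choose else 1, fun c hc => ?_⟩
    have h1 : ∃ c', P c' ∧ Φ c' = Φ c := ⟨c, hc, rfl⟩
    show P (dite _ _ _) ∧ Φ (dite _ _ _) = Φ c
    rw [dif_pos h1]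
    exact h1.choose_spec
  refine ⟨(Finset.univ ×ˢ T).image (fun p : X × kˣ => r p.1 * p.2), fun c hc => ?_⟩
  obtain ⟨h1, h2⟩ := hr c hc
  obtain ⟨u, hu, h3⟩ := h c (r (Φ c)) hc h1 h2.symm
  refine ⟨r (Φ c) * u, Finset.mem_image.2 ⟨(Φ c, u), Finset.mem_product.2 ⟨Finset.mem_univ _, hu⟩, rfl⟩, ?_⟩
  rwa [← mul_assoc]

section gal

variable {k F : Type} [Field k] [Field F] [Algebra k F]

theorem isSquare_of {c c' : kˣ} {r : k} (h : (c : k) * c' = r ^ 2) : IsSquare (c * c' * 1) := by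
  have hr : r ≠ 0 := by
    rintro rfl
    rw [zero_pow two_ne_zero] at h
    exact (mul_ne_zero c.ne_zero c'.ne_zero) h
  refine ⟨Units.mk0 r hr, ?_⟩
  apply Units.ext
  simp only [mul_one, Units.val_mul, Units.val_mk0]
  rw [h, sq]

/-- The classes which become trivial in a finite Galois extension. -/
theorem classes_E (E : Type) [Field E] [Algebra k E] [FiniteDimensional k E] [IsGalois k E] :
    ∃ U : Finset kˣ, ∀ c : kˣ, (∃ δ : E, δ ^ 2 = algebraMap k E c) → ∃ u ∈ U, IsSquare (c * u) := by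
  refine classes_finite (X := (E ≃ₐ[k] E) → Prop) _ (fun c σ => ∀ δ : E, δ ^ 2 = algebraMap k E c → σ δ = δ)
    {1} ?_
  rintro c c' ⟨δ, hδ⟩ ⟨δ', hδ'⟩ hΦ
  refine ⟨1, Finset.mem_singleton_self _, ?_⟩
  have hs : ∀ (σ : E ≃ₐ[k] E) (c : kˣ) (δ : E), δ ^ 2 = algebraMap k E c → σ δ = δ ∨ σ δ = -δ := by
    intro σ c δ h
    apply sq_eq_sq_iff_eq_or_eq_neg.1
    rw [← map_pow, h, σ.commutes]
  have hfix : ∀ (σ : E ≃ₐ[k] E) (c : kˣ) (δ : E), δ ^ 2 = algebraMap k E c →
      ((∀ δ : E, δ ^ 2 = algebraMap k E c → σ δ = δ) ↔ σ δ = δ) := by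
    intro σ c δ h
    refine ⟨fun h1 => h1 δ h, fun h1 δ' h2 => ?_⟩
    rw [← h] at h2
    rcases sq_eq_sq_iff_eq_or_eq_neg.1 h2 with h3 | h3
    · rw [h3, h1]
    · rw [h3, map_neg, h1]
  have h1 : δ * δ' ∈ Set.range (algebraMap k E) := by
    rw [IsGalois.mem_range_algebraMap_iff_fixed]
    intro σ
    have h2 := congrFun hΦ σ
    simp only [eq_iff_iff] at h2
    rw [hfix σ c δ hδ, hfix σ c' δ' hδ'] at h2
    rw [map_mul]
    by_cases h3 : σ δ = δ
    · rw [h3, h2.1 h3]
    · have h4 : σ δ' ≠ δ' := fun h5 => h3 (h2.2 h5)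
      rw [(hs σ c δ hδ).resolve_left h3, (hs σ c' δ' hδ').resolve_left h4, neg_mul_neg]
  obtain ⟨r, hr⟩ := h1
  apply isSquare_of (r := r)
  apply (algebraMap k E).injective
  rw [map_mul, map_pow, hr, mul_pow, hδ, hδ']

end gal

section cl

variable {k L F : Type} [Field k] [Field L] [Field F] [Algebra k L] [Algebra L F] [Algebra k F]
  [IsScalarTower k L F] [IsAlgClosure L F]

/-- A normal extension which contains the separable elements and in which there are only finitely
many square classes. -/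
theorem exists_M [FiniteDimensional k (separableClosure k L)] :
    ∃ (U : Finset kˣ) (M : IntermediateField k F), Normal k M ∧
      (∀ x : L, IsSeparable k x → algebraMap L F x ∈ M) ∧
      ∀ c : kˣ, (∃ δ ∈ M, δ ^ 2 = algebraMap k F c) → ∃ u ∈ U, IsSquare (c * u) := by
  haveI : IsAlgClosed F := IsAlgClosure.isAlgClosed L
  obtain ⟨θ, hθ⟩ := Field.exists_primitive_element k (separableClosure k L)
  obtain ⟨P, hP⟩ : ∃ P, P = minpoly k θ := ⟨_, rfl⟩
  have hsep : P.Separable := by rw [hP]; exact Algebra.IsSeparable.isSeparable k θ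
  have hP0 : P ≠ 0 := hsep.ne_zero
  obtain ⟨E, _, _, _, _, _, _, hs⟩ := exists_gal k F (P := P) fun x hx => sep_root hsep hx
  obtain ⟨U, hU⟩ := classes_E (k := k) E
  have hroot : aeval (algebraMap L F (θ : L)) P = 0 := by
    have h1 : aeval (θ : L) P = 0 := by
      have h2 := minpoly.aeval k θ
      rw [← hP] at h2
      have h3 := congrArg (algebraMap (separableClosure k L) L) h2
      rw [← aeval_algebraMap_apply, map_zero] at h3
      exact h3
    rw [aeval_algebraMap_apply, h1, map_zero]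
  obtain ⟨θ', -, hθ'⟩ := root_mem (E := E) hP0 hs hroot
  refine ⟨U, (IsScalarTower.toAlgHom k E F).fieldRange, ?_, fun x hx => ?_, ?_⟩
  · haveI : Normal k E := inferInstance
    exact Normal.of_algEquiv (AlgEquiv.ofInjectiveField (IsScalarTower.toAlgHom k E F))
  · have h1 : x ∈ separableClosure k L := mem_separableClosure_iff.2 hx
    have h2 : (⟨x, h1⟩ : separableClosure k L) ∈ IntermediateField.adjoin k {θ} := by
      rw [hθ]; trivial
    have h3 : IntermediateField.adjoin k {θ} ≤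
        ((IsScalarTower.toAlgHom k E F).fieldRange).comap
          ((IsScalarTower.toAlgHom k L F).comp (separableClosure k L).val) := by
      rw [IntermediateField.adjoin_le_iff]
      rintro _ rfl
      exact ⟨θ', hθ'⟩
    exact h3 h2
  · rintro c ⟨δ, ⟨ε, rfl⟩, h1⟩
    apply hU c
    refine ⟨ε, ?_⟩
    apply (algebraMap E F).injective
    rw [← IsScalarTower.algebraMap_apply k E F, map_pow]
    exact h1

end cl

section rep

variable {k L F : Type} [Field k] [Field L] [Field F] [Algebra k L] [Algebra L F] [Algebra k F]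
  [IsScalarTower k L F] [IsAlgClosure L F]

/-- A square root which is fixed by the Galois group. -/
theorem fixed_mem {x : F} {a : L} (h2 : (2 : F) ≠ 0) (hx0 : x ≠ 0) (hx : x ^ 2 = algebraMap L F a)
    (h : ∀ s : F ≃ₐ[L] F, s x = x) : ∃ r : L, algebraMap L F r = x := by
  by_contra hcon
  push Not at hcon
  haveI : IsAlgClosed F := IsAlgClosure.isAlgClosed L
  haveI : Normal L F := IsAlgClosure.normal L F
  haveI : Algebra.IsAlgebraic L F := IsAlgClosure.isAlgebraic
  have hirr : Irreducible (X ^ 2 - C a : L[X]) := by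
    apply (X_pow_sub_C_irreducible_iff_of_prime Nat.prime_two).2
    intro b hb
    rw [← hb, map_pow] at hx
    rcases sq_eq_sq_iff_eq_or_eq_neg.1 hx with h3 | h3
    · exact hcon b h3.symm
    · exact hcon (-b) (by rw [map_neg, h3])
  have hmin : X ^ 2 - C a = minpoly L x := minpoly.eq_of_irreducible_of_monic hirr (by
    rw [map_sub, map_pow, aeval_X, aeval_C, hx, sub_self]) (monic_X_pow_sub_C a two_ne_zero)
  obtain ⟨s, hs⟩ := minpoly.exists_algEquiv_of_root (K := L) (x := -x) (y := x)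
    (Algebra.IsAlgebraic.isAlgebraic x) (by
      rw [← hmin, map_sub, map_pow, aeval_X, aeval_C, neg_sq, hx, sub_self])
  have h5 : (2 : F) * x = 0 := by
    have h6 := h s
    have h7 : s (-x) = -x := by rw [map_neg, h6]
    first
    | linear_combination hs - h6
    | linear_combination h6 - hs
    | linear_combination hs - h7
    | linear_combination h7 - hs
  rcases mul_eq_zero.1 h5 with h6 | h6
  · exact h2 h6
  · exact hx0 h6

/-- The classes which become trivial in the extension defined by a representation modulo two. -/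
theorem classes_W (h2 : (2 : F) ≠ 0) {U : Finset kˣ}
    (hU : ∀ c : kˣ, (∃ r : L, r ^ 2 = algebraMap k L c) → ∃ u ∈ U, IsSquare (c * u))
    {W : Type w} [AddCommGroup W] [Module ℚ_[2] W] (τ : Representation ℚ_[2] (F ≃ₐ[L] F) W)
    {d : ℕ} (b : Module.Basis (Fin d) ℚ_[2] W) (hb : ∀ s, TrivMod b (τ s) 0) :
    ∃ V : Finset kˣ, ∀ c : kˣ,
      (∀ δ : F, δ ^ 2 = algebraMap k F c → ∀ s, TrivMod b (τ s) 1 → s δ = δ) →
        ∃ u ∈ V, IsSquare (c * u) := by
  haveI : IsAlgClosed F := IsAlgClosure.isAlgClosed L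
  obtain ⟨t, ht, -⟩ := lat_data hb
  have hred : ∀ s, (t s).map (PadicInt.toZMod (p := 2)) = 1 → TrivMod b (τ s) 1 := by
    intro s hs i j
    have h1 : PadicInt.toZMod (p := 2) (t s j i - (if i = j then 1 else 0)) = 0 := by
      have h3 := congrFun (congrFun hs j) i
      rw [Matrix.map_apply, Matrix.one_apply] at h3
      rw [map_sub, h3]
      by_cases h : i = j
      · rw [if_pos h, if_pos h.symm, map_one, sub_self]
      · rw [if_neg h, if_neg (Ne.symm h), map_zero, sub_self]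
    have h3 : t s j i - (if i = j then 1 else 0) ∈ Ideal.span {((2 : ℕ) : ℤ_[2])} := by
      rw [← PadicInt.maximalIdeal_eq_span_p, ← PadicInt.ker_toZMod]
      exact h1
    obtain ⟨z, hz⟩ := Ideal.mem_span_singleton.1 h3
    refine ⟨z, ?_⟩
    have h4 : b.repr (τ s (b i)) j = algebraMap ℤ_[2] ℚ_[2] (t s j i) := by
      rw [ht, map_sum, Finsupp.finsetSum_apply]
      simp only [map_smul, Finsupp.smul_apply, Module.Basis.repr_self, smul_eq_mul]
      rw [Finset.sum_eq_single j]
      · rw [Finsupp.single_eq_same, mul_one]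
      · intro j' _ hj'
        rw [Finsupp.single_eq_of_ne (by exact fun h => hj' h.symm), mul_zero]
      · intro h; exact absurd (Finset.mem_univ j) h
    have h5 : t s j i = (if i = j then 1 else 0) + (2 : ℕ) * z := by linear_combination hz
    rw [h4, h5, map_add, map_mul, pow_one]
    congr 1
    split_ifs <;> simp
  refine classes_finite (X := Matrix (Fin d) (Fin d) (ZMod 2) → Prop) _
    (fun c A => ∃ s : F ≃ₐ[L] F, (t s).map (PadicInt.toZMod (p := 2)) = A ∧
      ∀ δ : F, δ ^ 2 = algebraMap k F c → s δ = δ) U ?_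
  intro c c' hP hP' hΦ
  obtain ⟨δ, hδ⟩ := IsAlgClosed.exists_pow_nat_eq (algebraMap k F c) (n := 2) two_pos
  obtain ⟨δ', hδ'⟩ := IsAlgClosed.exists_pow_nat_eq (algebraMap k F c') (n := 2) two_pos
  have hs : ∀ (σ : F ≃ₐ[L] F) (c : kˣ) (δ : F), δ ^ 2 = algebraMap k F c → σ δ = δ ∨ σ δ = -δ := by
    intro σ c δ h
    apply sq_eq_sq_iff_eq_or_eq_neg.1
    rw [← map_pow, h, IsScalarTower.algebraMap_apply k L F, σ.commutes]
  have hfix : ∀ (σ : F ≃ₐ[L] F) (c : kˣ) (δ : F), δ ^ 2 = algebraMap k F c →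
      ((∀ δ : F, δ ^ 2 = algebraMap k F c → σ δ = δ) ↔ σ δ = δ) := by
    intro σ c δ h
    refine ⟨fun h1 => h1 δ h, fun h1 δ' h2 => ?_⟩
    rw [← h] at h2
    rcases sq_eq_sq_iff_eq_or_eq_neg.1 h2 with h3 | h3
    · rw [h3, h1]
    · rw [h3, map_neg, h1]
  have hstep : ∀ (c c' : kˣ) (δ δ' : F), δ ^ 2 = algebraMap k F c → δ' ^ 2 = algebraMap k F c' →
      (∀ δ : F, δ ^ 2 = algebraMap k F c' → ∀ s, TrivMod b (τ s) 1 → s δ = δ) →
      ((fun A => ∃ s : F ≃ₐ[L] F, (t s).map (PadicInt.toZMod (p := 2)) = A ∧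
        ∀ δ : F, δ ^ 2 = algebraMap k F c → s δ = δ) =
       (fun A => ∃ s : F ≃ₐ[L] F, (t s).map (PadicInt.toZMod (p := 2)) = A ∧
        ∀ δ : F, δ ^ 2 = algebraMap k F c' → s δ = δ)) →
      ∀ s : F ≃ₐ[L] F, s δ = δ → s δ' = δ' := by
    intro c c' δ δ' h h' hP' hΦ s h3
    have h4 := congrFun hΦ ((t s).map (PadicInt.toZMod (p := 2)))
    simp only [eq_iff_iff] at h4
    obtain ⟨s', h5, h6⟩ := h4.1 ⟨s, rfl, (hfix s c δ h).2 h3⟩
    have h7 : TrivMod b (τ (s⁻¹ * s')) 1 := by
      apply hred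
      have e1 : ∀ A B : Matrix (Fin d) (Fin d) ℤ_[2], (A * B).map (PadicInt.toZMod (p := 2)) =
          A.map (PadicInt.toZMod (p := 2)) * B.map (PadicInt.toZMod (p := 2)) := fun A B =>
        (PadicInt.toZMod (p := 2)).mapMatrix.map_mul A B
      rw [map_mul, e1, h5, ← e1, ← map_mul, inv_mul_cancel, map_one]
      exact (PadicInt.toZMod (p := 2)).mapMatrix.map_one
    have h8 := hP' δ' h' _ h7
    have h9 := congrArg s h8
    rw [AlgEquiv.mul_apply] at h9
    have h10 : s (s⁻¹ (s' δ')) = s' δ' := s.apply_symm_apply _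
    rw [h10, h6 δ' h'] at h9
    exact h9.symm
  have hc0 : δ ≠ 0 := by
    rintro rfl
    rw [zero_pow two_ne_zero] at hδ
    exact c.ne_zero ((map_eq_zero _).1 hδ.symm)
  have hc0' : δ' ≠ 0 := by
    rintro rfl
    rw [zero_pow two_ne_zero] at hδ'
    exact c'.ne_zero ((map_eq_zero _).1 hδ'.symm)
  have hprod : (δ * δ') ^ 2 = algebraMap L F (algebraMap k L (c * c' : k)) := by
    rw [← IsScalarTower.algebraMap_apply, map_mul, mul_pow, hδ, hδ']
  obtain ⟨r, hr⟩ := fixed_mem (L := L) h2 (mul_ne_zero hc0 hc0') hprod (fun s => by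
    rw [map_mul]
    by_cases h3 : s δ = δ
    · rw [h3, hstep c c' δ δ' hδ hδ' hP' hΦ s h3]
    · have h4 : s δ' ≠ δ' := fun h5 => h3 (hstep c' c δ' δ hδ' hδ hP hΦ.symm s h5)
      rw [(hs s c δ hδ).resolve_left h3, (hs s c' δ' hδ').resolve_left h4, neg_mul_neg])
  apply hU (c * c')
  refine ⟨r, ?_⟩
  apply (algebraMap L F).injective
  rw [map_pow, hr, hprod]
  rfl

end rep

end Pool.Agent.N197.Htj
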