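import Pool.Agent.X243.Gen.Full

/-!
One Frobenius element acting on the roots of all the polynomials which split in a finite Galois
extension and are separable modulo a maximal ideal.
-/

set_option autoImplicit false
set_option linter.all false

open Polynomial IsLocalRing
open scoped Classical

namespace Pool.Agent.N197.Htj

open Pool.Agent.X243.Tate Pool.Agent.X243.Sol Pool.Agent.X243.Gen

section frob

variable {R k : Type} [CommRing R] [IsDomain R] [IsIntegrallyClosed R] [IsNoetherianRing R]
  [Field k] [Algebra R k] [IsFractionRing R k] (m : Ideal R) [m.IsMaximal] [Finite (R ⧸ m)]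

/-- A single Frobenius element for all the polynomials. -/
theorem frob_all (k) [Field k] [Algebra R k] [IsFractionRing R k]
    (E : Type) [Field E] [Algebra k E] [FiniteDimensional k E] [IsGalois k E] :
    ∃ (κ : Type) (_ : Field κ) (j : R ⧸ m →+* κ) (σ : E ≃ₐ[k] E),
      ∀ (f : R[X]) (N : ℕ), f.natDegree ≤ N → (f.map (Ideal.Quotient.mk m)).natDegree = N →
        (f.map (Ideal.Quotient.mk m)).Separable →
        ((f.map (algebraMap R k)).map (algebraMap k E)).Splits →
        ∃ (r : (f.map (algebraMap R k)).rootSet E → κ) (u : κ),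
          (∀ θ, r (MulAction.toPermHom (E ≃ₐ[k] E) ((f.map (algebraMap R k)).rootSet E) σ θ) =
            r θ ^ Nat.card (R ⧸ m)) ∧
          (f.map (Ideal.Quotient.mk m)).map j =
            C u * ∏ θ : (f.map (algebraMap R k)).rootSet E, (X - C (r θ)) := by
  letI : Algebra R E := ((algebraMap k E).comp (algebraMap R k)).toAlgebra
  haveI : IsScalarTower R k E := IsScalarTower.of_algebraMap_eq fun _ => rfl
  haveI : m.IsMaximal := inferInstance
  letI : Field (R ⧸ m) := Ideal.Quotient.field m
  obtain ⟨B, ρ, j, σ, hρ, hj, hσ⟩ := frob_gen m k E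
  refine ⟨ResidueField B, inferInstance, j, σ, ?_⟩
  intro f N hf hd hsep hspl
  obtain ⟨fb, hfb⟩ : ∃ fb, fb = f.map (Ideal.Quotient.mk m) := ⟨_, rfl⟩
  rw [← hfb] at hd hsep ⊢
  have hfN : f.natDegree = N := by
    refine le_antisymm hf ?_
    rw [← hd, hfb]
    exact natDegree_map_le
  have hlc : fb.leadingCoeff = Ideal.Quotient.mk m f.leadingCoeff := by
    rw [leadingCoeff, hd, hfb, coeff_map, leadingCoeff, hfN]
  have hc : f.leadingCoeff ∉ m := by
    intro h
    apply leadingCoeff_ne_zero.2 hsep.ne_zero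
    rw [hlc, Ideal.Quotient.eq_zero_iff_mem]
    exact h
  have hinjk : Function.Injective (algebraMap R k) := IsFractionRing.injective R k
  have hf0 : f ≠ 0 := by
    rintro rfl
    apply hc
    rw [leadingCoeff_zero]
    exact Ideal.zero_mem _
  obtain ⟨F, hF⟩ : ∃ F, F = f.map (algebraMap R k) := ⟨_, rfl⟩
  rw [← hF] at hspl
  have hlcF : F.leadingCoeff = algebraMap R k f.leadingCoeff := by
    rw [hF, leadingCoeff_map_of_injective hinjk]
  have hF0 : F ≠ 0 := hF ▸ (Polynomial.map_ne_zero_iff hinjk).2 hf0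
  rw [← hF]
  have hθint : ∀ θ, aeval θ F = 0 → IsIntegral R (algebraMap R E f.leadingCoeff * θ) := by
    intro θ hθ
    rw [hF, aeval_map_algebraMap] at hθ
    have := isIntegral_leadingCoeff_smul f θ hθ
    rwa [Algebra.smul_def] at this
  have hθs : ∀ θ, aeval θ F = 0 → θ ∈ B ∧ σ θ ∈ B ∧
      red B (σ θ) = red B θ ^ Nat.card (R ⧸ m) := fun θ hθ => hσ _ hc θ (hθint θ hθ)
  refine ⟨fun θ => red B (θ : E), j fb.leadingCoeff,
    fun θ => (hθs θ (aeval_eq_zero_of_mem_rootSet θ.2)).2.2, ?_⟩
  have hFE0 : F.map (algebraMap k E) ≠ 0 :=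
    (Polynomial.map_ne_zero_iff (algebraMap k E).injective).2 hF0
  have hrt : ∀ θ : E, θ ∈ (F.map (algebraMap k E)).roots ↔ aeval θ F = 0 := by
    intro θ
    rw [mem_roots hFE0, IsRoot.def, eval_map_algebraMap]
  have hBθ : ∀ θ ∈ (F.map (algebraMap k E)).roots, θ ∈ B := fun θ h => (hθs θ ((hrt θ).1 h)).1
  have hmapρ : (f.map ρ).map (algebraMap B E) = F.map (algebraMap k E) := by
    rw [hF, Polynomial.map_map, Polynomial.map_map, ← IsScalarTower.algebraMap_eq]
    congr 1
    ext x
    exact hρ x
  have hfac : (f.map ρ) = C (ρ f.leadingCoeff) *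
      ((F.map (algebraMap k E)).roots.attach.map
        (fun θ => (X - C (⟨θ.1, hBθ θ.1 θ.2⟩ : B)))).prod := by
    apply Polynomial.map_injective (algebraMap B E) Subtype.val_injective
    rw [hmapρ, Polynomial.map_mul, map_C, Polynomial.map_multiset_prod, Multiset.map_map]
    have h1 : (Multiset.map ((Polynomial.map (algebraMap B E)) ∘
        (fun θ : {x // x ∈ (F.map (algebraMap k E)).roots} => (X - C (⟨θ.1, hBθ θ.1 θ.2⟩ : B))))
        (F.map (algebraMap k E)).roots.attach) =
        (F.map (algebraMap k E)).roots.map (fun θ => X - C θ) := by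
      conv_rhs => rw [← Multiset.attach_map_val (F.map (algebraMap k E)).roots]
      rw [Multiset.map_map]
      refine Multiset.map_congr rfl fun θ _ => ?_
      simp only [Function.comp, Polynomial.map_sub, map_X, map_C]
      rfl
    rw [h1]
    have h2 := hspl.eq_prod_roots
    have hl : algebraMap B E (ρ f.leadingCoeff) = (F.map (algebraMap k E)).leadingCoeff := by
      rw [leadingCoeff_map, hlcF, ← IsScalarTower.algebraMap_apply]
      exact hρ _
    rw [hl]
    exact h2
  have hfac2 : fb.map j = C (j fb.leadingCoeff) *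
      ((F.map (algebraMap k E)).roots.map (fun θ => X - C (red B θ))).prod := by
    rw [hfb, ← map_quot m ρ (residue B) j hj f, hfac, Polynomial.map_mul, map_C,
      Polynomial.map_multiset_prod, Multiset.map_map, ← hfb, hlc, hj]
    congr 2
    conv_rhs => rw [← Multiset.attach_map_val (F.map (algebraMap k E)).roots]
    rw [Multiset.map_map]
    refine Multiset.map_congr rfl fun θ _ => ?_
    simp only [Function.comp, Polynomial.map_sub, map_X, map_C]
    congr 2
    exact (red_coe (⟨θ.1, hBθ θ.1 θ.2⟩ : B)).symm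
  have hsep2 : (fb.map j).Separable := hsep.map
  have hnd : ((F.map (algebraMap k E)).roots.map (red B)).Nodup := by
    have h1 : fb.map j ≠ 0 := hsep2.ne_zero
    have h2 : (fb.map j).roots = (F.map (algebraMap k E)).roots.map (red B) := by
      rw [hfac2, roots_C_mul]
      · have h3 : (F.map (algebraMap k E)).roots.map (fun θ => X - C (red B θ)) =
            ((F.map (algebraMap k E)).roots.map (red B)).map (fun x => X - C x) := by
          rw [Multiset.map_map]; rfl
        rw [h3, roots_multiset_prod_X_sub_C]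
      · intro h0
        rw [h0, C_0, zero_mul] at hfac2
        exact h1 hfac2
    rw [← h2]
    exact nodup_roots hsep2
  have hndE : (F.map (algebraMap k E)).roots.Nodup := Multiset.Nodup.of_map _ hnd
  rw [hfac2]
  congr 1
  have hset : (F.rootSet E).toFinset = (F.map (algebraMap k E)).roots.toFinset := by
    ext x
    rw [Set.mem_toFinset, mem_rootSet, Multiset.mem_toFinset, hrt]
    exact ⟨fun h => h.2, fun h => ⟨hF0, h⟩⟩
  rw [Finset.prod_set_coe (F.rootSet E) (f := fun θ : E => X - C (red B θ)), hset,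
    Finset.prod_multiset_map_count]
  refine Finset.prod_congr rfl fun θ hθ => ?_
  rw [Multiset.count_eq_one_of_mem hndE (Multiset.mem_toFinset.1 hθ), pow_one]

end frob

section types

variable {R κ : Type} [Field R] [Finite R] [Field κ] (j : R →+* κ) {Z : Type} [Fintype Z]
  [DecidableEq Z] {f : R[X]} {u : κ} {r : Z → κ} {s : Equiv.Perm Z}

/-- An irreducible reduction: one cycle. -/
theorem cycle_of (hsep : f.Separable) (hf : f.map j = C u * ∏ θ : Z, (X - C (r θ)))
    (hs : ∀ θ, r (s θ) = r θ ^ Nat.card R) (hirr : Irreducible f) (h3 : 3 ≤ Fintype.card Z) :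
    (∀ x, s (s x) ≠ x) ∧ Equiv.Perm.sign s = -(-1) ^ Fintype.card Z := by
  have htr : ∀ x y : Z, ∃ n : ℕ, (s ^ n) x = y := fun x y =>
    trans_of j hsep hf hs hirr ((root_iff j hsep hf _).2 ⟨x, rfl⟩)
      ((root_iff j hsep hf _).2 ⟨y, rfl⟩)
  have h2 : ∀ x, s (s x) ≠ x := by
    intro x hx
    have h4 : ∀ n : ℕ, (s ^ n) x = x ∨ (s ^ n) x = s x := by
      intro n
      induction n with
      | zero => exact Or.inl rfl
      | succ n ih =>
        rw [pow_succ', Equiv.Perm.mul_apply]
        rcases ih with h | h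
        · rw [h]; exact Or.inr rfl
        · rw [h]; exact Or.inl hx
    have h5 : (Finset.univ : Finset Z) ⊆ {x, s x} := by
      intro y _
      obtain ⟨n, hn⟩ := htr x y
      rw [Finset.mem_insert, Finset.mem_singleton]
      rcases h4 n with h | h
      · exact Or.inl (hn.symm.trans h)
      · exact Or.inr (hn.symm.trans h)
    have h6 := Finset.card_le_card h5
    have h7 := Finset.card_le_two (a := x) (b := s x)
    rw [Finset.card_univ] at h6
    omega
  have h1 : ∀ x, s x ≠ x := fun x hx => h2 x (by rw [hx, hx])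
  refine ⟨h2, ?_⟩
  obtain ⟨x⟩ : Nonempty Z := Fintype.card_pos_iff.1 (by omega)
  have hc : s.IsCycle := by
    refine ⟨x, h1 x, fun y _ => ?_⟩
    obtain ⟨n, hn⟩ := htr x y
    exact ⟨n, by rw [zpow_natCast]; exact hn⟩
  have hsup : s.support = Finset.univ := by
    ext y
    rw [Equiv.Perm.mem_support]
    exact ⟨fun _ => Finset.mem_univ _, fun _ => h1 y⟩
  rw [hc.sign, hsup, Finset.card_univ]

/-- A reduction with one quadratic factor: a transposition. -/
theorem swap_of (hsep : f.Separable) (hf : f.map j = C u * ∏ θ : Z, (X - C (r θ)))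
    (hs : ∀ θ, r (s θ) = r θ ^ Nat.card R) {N : ℕ} (h : I3 N f) :
    (∀ x, s (s x) = x) ∧ Equiv.Perm.sign s = -1 := by
  obtain ⟨d, π, S, hd, hm, hπ, hπd, hS, hfac⟩ := h
  have hsw := type_swap j hsep hf hs hπ hπd hfac
  refine ⟨fun x => ?_, hsw.sign_eq⟩
  obtain ⟨a, b, hab, rfl⟩ := hsw
  rw [← Equiv.Perm.mul_apply, Equiv.swap_mul_self, Equiv.Perm.one_apply]

end types

end Pool.Agent.N197.Htj
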