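import Pool.Agent.N197.Htj.Frb
import Pool.Agent.N197.Htj.Den

/-!
The Galois theory of the good tuples.
-/

set_option autoImplicit false
set_option linter.all false

open Polynomial IsLocalRing
open scoped Classical

namespace Pool.Agent.N197.Htj

open Pool.Agent.X243.Tate Pool.Agent.X243.Sol Pool.Agent.X243.Gen Pool.Agent.Y160.T3

section gal

variable {R k : Type} [CommRing R] [IsDomain R] [IsIntegrallyClosed R] [IsNoetherianRing R]
  [Field k] [Algebra R k] [IsFractionRing R k] {ι : Type} [Fintype ι] {n : ι → ℕ} {U : Finset R}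
  {y : (Σ i, Fin (n i)) → R}

/-- The component of a tuple. -/
def cmp {R : Type} {ι : Type} {n : ι → ℕ} (y : (Σ i, Fin (n i)) → R) (i : ι) : Fin (n i) → R :=
  fun j => y ⟨i, j⟩

/-- The polynomials over `R`. -/
noncomputable def fR {R : Type} [CommRing R] {ι : Type} {n : ι → ℕ} (y : (Σ i, Fin (n i)) → R)
    (i : ι) : R[X] := mP (cmp y i)

theorem fR_map {p : Ideal R} (i : ι) : (fR y i).map (Ideal.Quotient.mk p) =
    mP (fun j => Ideal.Quotient.mk p (y ⟨i, j⟩)) := mP_map _ _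

theorem fR_nd (i : ι) : (fR y i).natDegree ≤ n i := mP_natDegree_le _

theorem FF_of (h3 : ∀ i, 3 ≤ n i) (hy : Dat n U y) (i : ι) :
    FF (n i) ((fR y i).map (algebraMap R k)) := by
  refine evG (B := 2 * (∑ i, n i) + 2) (h3 i) (fR_nd i) fun t => ?_
  obtain ⟨p, hp, h⟩ := hy (Sum.inl (i, t))
  refine ⟨p, hp.1, mv (fun j => Ideal.Quotient.mk p (y ⟨i, j⟩)), ?_, ?_⟩
  · exact h i t (by simp [TT])
  · rw [fR_map]
    rfl

theorem I1_of {p : Ideal R} {N : ℕ} {z : Fin N → R ⧸ p} (h : z ∈ Mv (R ⧸ p) N 0) : I1 N (mP z) := h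

theorem I3_of {p : Ideal R} {N : ℕ} {z : Fin N → R ⧸ p} (h : z ∈ Mv (R ⧸ p) N 2) : I3 N (mP z) := h

/-- The polynomial with an irreducible reduction. -/
theorem red_irr {B : ℕ} {c : R} {p : Ideal R} (hp : p ∈ Zc R B c) {i : ι}
    (h : (fun j => Ideal.Quotient.mk p (y ⟨i, j⟩)) ∈ Mv (R ⧸ p) (n i) 0) :
    Irreducible ((fR y i).map (Ideal.Quotient.mk p)) ∧
      ((fR y i).map (Ideal.Quotient.mk p)).natDegree = n i ∧
      ((fR y i).map (Ideal.Quotient.mk p)).Separable := by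
  haveI := hp.1.1
  haveI : Finite (R ⧸ p) := hp.1.2.1
  letI : Field (R ⧸ p) := Ideal.Quotient.field p
  haveI : PerfectField (R ⧸ p) := PerfectField.ofFinite
  rw [fR_map]
  have h1 := I1_of h
  exact ⟨h1.1, h1.2, PerfectField.separable_of_irreducible h1.1⟩

/-- The polynomial with one quadratic factor. -/
theorem red_swap {B : ℕ} {c : R} {p : Ideal R} (hp : p ∈ Zc R B c) {i : ι}
    (h : (fun j => Ideal.Quotient.mk p (y ⟨i, j⟩)) ∈ Mv (R ⧸ p) (n i) 2) :
    I3 (n i) ((fR y i).map (Ideal.Quotient.mk p)) ∧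
      ((fR y i).map (Ideal.Quotient.mk p)).natDegree = n i ∧
      ((fR y i).map (Ideal.Quotient.mk p)).Separable := by
  haveI := hp.1.1
  haveI : Finite (R ⧸ p) := hp.1.2.1
  letI : Field (R ⧸ p) := Ideal.Quotient.field p
  rw [fR_map]
  have h1 := I3_of h
  refine ⟨h1, I3_natDegree h1, ?_⟩
  obtain ⟨d, π, S, hd, -, hπ, hπd, -, hfac⟩ := h1
  rw [hfac]
  exact sep_lin hπ hπd.ge hd S

/-- An element of the Galois group which fixes the roots of one polynomial and moves all the roots of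
another one. -/
theorem pair_frob (h3 : ∀ i, 3 ≤ n i) (hy : Dat n U y) {i j : ι} (hij : j ≠ i)
    (E : Type) [Field E] [Algebra k E] [FiniteDimensional k E] [IsGalois k E]
    (hi : (((fR y i).map (algebraMap R k)).map (algebraMap k E)).Splits)
    (hj : (((fR y j).map (algebraMap R k)).map (algebraMap k E)).Splits) :
    ∃ σ : E ≃ₐ[k] E, (∀ θ ∈ ((fR y j).map (algebraMap R k)).rootSet E, σ θ = θ) ∧
      ∀ θ ∈ ((fR y i).map (algebraMap R k)).rootSet E, σ θ ≠ θ := by
  obtain ⟨p, hp, h⟩ := hy (Sum.inr (Sum.inl (i, j)))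
  haveI := hp.1.1
  haveI : Finite (R ⧸ p) := hp.1.2.1
  letI : Field (R ⧸ p) := Ideal.Quotient.field p
  obtain ⟨a1, a2, a3⟩ := red_irr hp (h i 0 (by simp [TT]))
  obtain ⟨b1, b2, b3⟩ := red_swap hp (h j 2 (by simp [TT, hij]))
  obtain ⟨κ, _, φ, σ, H⟩ := frob_all p k E
  obtain ⟨r, u, hr, hf⟩ := H _ _ (fR_nd i) a2 a3 hi
  obtain ⟨r', u', hr', hf'⟩ := H _ _ (fR_nd j) b2 b3 hj
  have hcard : Fintype.card (((fR y i).map (algebraMap R k)).rootSet E) = n i := by
    have h4 := (FF_of (k := k) h3 hy i)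
    rw [card_rootSet_eq_natDegree h4.2.1 hi, h4.1.2]
  obtain ⟨c1, -⟩ := cycle_of φ a3 hf hr a1 (by rw [hcard]; exact h3 i)
  obtain ⟨d1, -⟩ := swap_of φ b3 hf' hr' b1
  refine ⟨σ * σ, fun θ hθ => ?_, fun θ hθ hfix => ?_⟩
  · exact congrArg Subtype.val (d1 ⟨θ, hθ⟩)
  · exact c1 ⟨θ, hθ⟩ (Subtype.ext hfix)

/-- The sign of a Frobenius element on the roots is not its sign on a square root. -/
theorem sqrt_frob (h2 : (2 : R) ≠ 0) (h3 : ∀ i, 3 ≤ n i) (ho : ∀ i, Odd (n i)) (hy : Dat n U y)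
    (i : ι) {u : R} (hu : u ∈ U)
    (E : Type) [Field E] [Algebra k E] [FiniteDimensional k E] [IsGalois k E]
    (hi : (((fR y i).map (algebraMap R k)).map (algebraMap k E)).Splits) {η : E}
    (hη : η ^ 2 = algebraMap k E (algebraMap R k u)) :
    ∃ σ : E ≃ₐ[k] E,
      (σ η = η ∧ Equiv.Perm.sign (MulAction.toPermHom (E ≃ₐ[k] E)
        (((fR y i).map (algebraMap R k)).rootSet E) σ) = -1) ∨
      (σ η = -η ∧ Equiv.Perm.sign (MulAction.toPermHom (E ≃ₐ[k] E)
        (((fR y i).map (algebraMap R k)).rootSet E) σ) = 1) := by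
  obtain ⟨p, hp, h⟩ := hy (Sum.inr (Sum.inr (i, ⟨u, hu⟩)))
  haveI := hp.1.1
  haveI : p.IsPrime := hp.1.1.isPrime
  haveI : Finite (R ⧸ p) := hp.1.2.1
  letI : Field (R ⧸ p) := Ideal.Quotient.field p
  haveI : PerfectField (R ⧸ p) := PerfectField.ofFinite
  have h2p : (2 : R ⧸ p) ≠ 0 := Zg_two hp.1
  have hup : Ideal.Quotient.mk p u ≠ 0 := by
    intro h0
    apply hp.2
    rw [← Finset.mul_prod_erase _ _ hu]
    exact p.mul_mem_right _ (Ideal.Quotient.eq_zero_iff_mem.1 h0)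
  have hinj : Function.Injective (algebraMap R k) := IsFractionRing.injective R k
  have h2k : (2 : k) ≠ 0 := by
    rw [← map_ofNat (algebraMap R k) 2]
    exact (map_ne_zero_iff _ hinj).2 h2
  have h2E : (2 : E) ≠ 0 := by
    rw [← map_ofNat (algebraMap k E) 2]
    exact (map_ne_zero_iff _ (algebraMap k E).injective).2 h2k
  have hu0 : u ≠ 0 := by
    rintro rfl
    exact hup (map_zero _)
  have hη0 : η ≠ 0 := by
    rintro rfl
    rw [zero_pow two_ne_zero] at hη
    have h4 := (map_eq_zero_iff _ (algebraMap k E).injective).1 hη.symm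
    exact hu0 ((map_eq_zero_iff _ hinj).1 h4)
  have hneg : -η ≠ η := by
    intro h4
    apply hη0
    have h5 : (2 : E) * η = 0 := by linear_combination -h4
    exact (mul_eq_zero.1 h5).resolve_left h2E
  -- the quadratic polynomial
  obtain ⟨g, hg⟩ : ∃ g : R[X], g = X ^ 2 - C u := ⟨_, rfl⟩
  have hgm : g.map (Ideal.Quotient.mk p) = X ^ 2 - C (Ideal.Quotient.mk p u) := by
    rw [hg, Polynomial.map_sub, Polynomial.map_pow, map_X, map_C]
  have hgk : g.map (algebraMap R k) = X ^ 2 - C (algebraMap R k u) := by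
    rw [hg, Polynomial.map_sub, Polynomial.map_pow, map_X, map_C]
  have hgE : (g.map (algebraMap R k)).map (algebraMap k E) = (X - C η) * (X + C η) := by
    rw [hgk, Polynomial.map_sub, Polynomial.map_pow, map_X, map_C, ← hη, C_pow]
    ring
  have g1 : g.natDegree ≤ 2 := by
    rw [hg]
    exact (natDegree_sub_C).le.trans (natDegree_X_pow_le 2)
  have g2 : (g.map (Ideal.Quotient.mk p)).natDegree = 2 := by
    rw [hgm, natDegree_sub_C, natDegree_X_pow]
  have g3 : (g.map (Ideal.Quotient.mk p)).Separable := by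
    rw [hgm]
    exact separable_X_pow_sub_C _ (by exact_mod_cast h2p) hup
  have g4 : ((g.map (algebraMap R k)).map (algebraMap k E)).Splits := by
    rw [hgE]
    have e : (X + C η : E[X]) = X - C (-η) := by rw [C_neg, sub_neg_eq_add]
    rw [e]
    exact (Splits.X_sub_C η).mul (Splits.X_sub_C (-η))
  obtain ⟨κ, _, φ, σ, H⟩ := frob_all p k E
  obtain ⟨r, v, hr, hf⟩ := H g 2 g1 g2 g3 g4
  have hg0 : g.map (algebraMap R k) ≠ 0 := by
    intro h4
    have h5 := congrArg natDegree h4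
    rw [hgk, natDegree_sub_C, natDegree_X_pow, natDegree_zero] at h5
    omega
  have hroot : ∀ x : E, x ∈ (g.map (algebraMap R k)).rootSet E ↔ x = η ∨ x = -η := by
    intro x
    rw [mem_rootSet, ← eval_map_algebraMap, hgE, eval_mul, eval_sub, eval_add, eval_X, eval_C,
      mul_eq_zero, sub_eq_zero]
    constructor
    · rintro ⟨-, h4 | h4⟩
      · exact Or.inl h4
      · exact Or.inr (eq_neg_of_add_eq_zero_left h4)
    · rintro (h4 | h4)
      · exact ⟨hg0, Or.inl h4⟩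
      · exact ⟨hg0, Or.inr (by rw [h4, neg_add_cancel])⟩
  have hpm : σ η = η ∨ σ η = -η := by
    apply sq_eq_sq_iff_eq_or_eq_neg.1
    rw [← map_pow, hη, σ.commutes]
  refine ⟨σ, ?_⟩
  by_cases hsq : IsSquare (Ideal.Quotient.mk p u)
  · left
    obtain ⟨b1, b2, b3⟩ := red_swap hp (h i 2 (by simp [TT, hsq]))
    obtain ⟨r', u', hr', hf'⟩ := H _ _ (fR_nd i) b2 b3 hi
    refine ⟨?_, (swap_of φ b3 hf' hr' b1).2⟩
    obtain ⟨w, hw⟩ := hsq
    obtain ⟨θ, -, hθ⟩ := fix_of φ g3 hf hr (c := w) (by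
      rw [hgm, eval_sub, eval_pow, eval_X, eval_C, hw]
      ring)
    have h5 : σ (θ : E) = θ := congrArg Subtype.val hθ
    rcases (hroot θ).1 θ.2 with h6 | h6
    · rw [h6] at h5
      exact h5
    · rw [h6, map_neg] at h5
      exact neg_injective h5
  · right
    obtain ⟨a1, a2, a3⟩ := red_irr hp (h i 0 (by simp [TT, hsq]))
    obtain ⟨r', u', hr', hf'⟩ := H _ _ (fR_nd i) a2 a3 hi
    have hcard : Fintype.card (((fR y i).map (algebraMap R k)).rootSet E) = n i := by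
      have h4 := (FF_of (k := k) h3 hy i)
      rw [card_rootSet_eq_natDegree h4.2.1 hi, h4.1.2]
    obtain ⟨-, c2⟩ := cycle_of φ a3 hf' hr' a1 (by rw [hcard]; exact h3 i)
    rw [hcard, (ho i).neg_one_pow, neg_neg] at c2
    refine ⟨?_, c2⟩
    -- the quadratic polynomial is irreducible
    have hirr : Irreducible (g.map (Ideal.Quotient.mk p)) := by
      rw [irreducible_iff_roots_eq_zero_of_degree_le_three (by rw [g2]) (by rw [g2]; omega)]
      rw [Multiset.eq_zero_iff_forall_notMem]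
      intro c hc
      have h6 := (mem_roots'.1 hc).2
      rw [IsRoot.def, hgm, eval_sub, eval_pow, eval_X, eval_C, sub_eq_zero] at h6
      exact hsq ⟨c, by rw [← h6, sq]⟩
    rcases hpm with h6 | h6
    · exfalso
      obtain ⟨t, ht⟩ := trans_of φ g3 hf hr hirr
        (θ := ⟨η, (hroot η).2 (Or.inl rfl)⟩) (θ' := ⟨-η, (hroot _).2 (Or.inr rfl)⟩)
        ((root_iff φ g3 hf _).2 ⟨_, rfl⟩) ((root_iff φ g3 hf _).2 ⟨_, rfl⟩)
      have h7 : MulAction.toPermHom (E ≃ₐ[k] E) ((g.map (algebraMap R k)).rootSet E) σ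
          ⟨η, (hroot η).2 (Or.inl rfl)⟩ = ⟨η, (hroot η).2 (Or.inl rfl)⟩ := Subtype.ext h6
      have h8 := Function.IsFixedPt.perm_pow (e := MulAction.toPermHom (E ≃ₐ[k] E)
        ((g.map (algebraMap R k)).rootSet E) σ) h7 t
      rw [Function.IsFixedPt, ht] at h8
      exact hneg (congrArg Subtype.val h8)
    · exact h6

end gal

end Pool.Agent.N197.Htj
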