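import Pool.Agent.N197.Htj.Fin

/-!
The density theorem for a given representation of the Galois group of a given field.
-/

set_option autoImplicit false
set_option linter.all false

namespace Pool.Agent.N197.Htj

open Polynomial Filter Topology Pool.Agent.N171
open Pool.Agent.X243.Gen (tendsto_of_dens)
open scoped Classical

universe w

/-- Each representation is covered by a finite set. -/
theorem exists_U {k L F : Type} [Field k] [Field L] [Field F] [Algebra k L] [Algebra L F]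
    [Algebra k F] [IsScalarTower k L F] [IsAlgClosure L F]
    [FiniteDimensional k (separableClosure k L)] (h2 : (2 : k) ≠ 0) {ι : Type} (n : ι → ℕ)
    {W : Type w} [AddCommGroup W] [Module ℚ_[2] W] (τ : Representation ℚ_[2] (F ≃ₐ[L] F) W)
    (hτ : ∃ (d : ℕ) (b : Module.Basis (Fin d) ℚ_[2] W), ∀ s, TrivMod b (τ s) 0) :
    ∃ U : Finset kˣ, (∀ f : ι → k[X], Allowed L F U f) ∧ Tame n U τ := by
  obtain ⟨d, b, hb⟩ := hτ
  obtain ⟨U, M, hM1, hM2, hM3⟩ := exists_M (k := k) (L := L) (F := F)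
  have h2F : (2 : F) ≠ 0 := by
    rw [← map_ofNat (algebraMap k F) 2]
    exact (map_ne_zero_iff _ (algebraMap k F).injective).2 h2
  obtain ⟨V, hV⟩ := classes_W (k := k) (L := L) (F := F) h2F (U := U) (fun c hc => by
    obtain ⟨r, hr⟩ := hc
    refine hM3 c ⟨algebraMap L F r, hM2 r ?_, ?_⟩
    · have hsep : (X ^ 2 - C (c : k) : k[X]).Separable :=
        separable_X_pow_sub_C _ (by exact_mod_cast h2) c.ne_zero
      exact sep_root hsep (by rw [map_sub, map_pow, aeval_X, aeval_C, hr, sub_self])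
    · rw [← map_pow, hr, ← IsScalarTower.algebraMap_apply]) τ b hb
  refine ⟨U ∪ V, fun f => Or.inr ⟨M, hM1, hM2, Or.inr fun c hc => ?_⟩, d, b, hb, Or.inr (Or.inr fun c hc => ?_)⟩
  · obtain ⟨u, hu, h⟩ := hM3 c hc
    exact ⟨u, Finset.mem_union_left _ hu, h⟩
  · obtain ⟨u, hu, h⟩ := hV c hc
    exact ⟨u, Finset.mem_union_right _ hu, h⟩

/-- The Tate classes on the powers of the product of the Jacobians with values in a representation. -/
def Holds {k : Type} [Field k] (L F : Type) [Field L] [Field F] [Algebra k L] [Algebra L F]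
    {ι : Type} (f : ι → k[X]) {W : Type w} [AddCommGroup W] [Module ℚ_[2] W]
    (τ : Representation ℚ_[2] (F ≃ₐ[L] F) W) : Prop :=
  ∃ (_ : ∀ i, HypP ((f i).map (algebraMap k L)))
    (ω : ∀ i, Vt (JacP ((f i).map (algebraMap k L)) F) →ₗ[ℚ_[2]]
      Vt (JacP ((f i).map (algebraMap k L)) F) →ₗ[ℚ_[2]] ℚ_[2]),
    (∀ i, IsWeil (vRep (JacP ((f i).map (algebraMap k L)) F) (F ≃ₐ[L] F)) (cycQ L F) (ω i)) ∧
    Splits (vRep (JPi (fun i => (f i).map (algebraMap k L)) F) (F ≃ₐ[L] F))
      (cycQ L F) (fun i => pullP (fun i => (f i).map (algebraMap k L)) F i (ω i)) τ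

/-- The limit for a given representation. -/
theorem lim_W (R k : Type) [CommRing R] [IsDomain R] [IsIntegrallyClosed R] [Algebra.FiniteType ℤ R]
    [Field k] [Algebra R k] [IsFractionRing R k] {ι : Type} [Fintype ι] [Nonempty ι] (n : ι → ℕ)
    (hR : ¬ IsField R) (h2 : (2 : R) ≠ 0) (h7 : ∀ i, 7 ≤ n i) (ho : ∀ i, Odd (n i))
    (L F : Type) [Field L] [Field F] [Algebra k L] [Algebra L F]
    [Algebra k F] [IsScalarTower k L F] [IsAlgClosure L F]
    [FiniteDimensional k (separableClosure k L)]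
    {W : Type w} [AddCommGroup W] [Module ℚ_[2] W] (τ : Representation ℚ_[2] (F ≃ₐ[L] F) W)
    (hτ : ∃ (d : ℕ) (b : Module.Basis (Fin d) ℚ_[2] W), ∀ s, TrivMod b (τ s) 0)
    (B : ℕ → Finset ((Σ i, Fin (n i)) → R)) (hB : ∀ i, (B i).Nonempty)
    (heq : ∀ M : Ideal R, Finite (R ⧸ M) → ∀ x : (Σ i, Fin (n i)) → R ⧸ M,
      Tendsto (fun i => (((B i).filter (fun y => ∀ j, Ideal.Quotient.mk M (y j) = x j)).card : ℝ) /
        ((B i).card : ℝ)) atTop
        (𝓝 (1 / (Nat.card (R ⧸ M) : ℝ) ^ (Fintype.card (Σ i, Fin (n i)))))) :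
    Tendsto (fun i => (((B i).filter (fun y => Holds L F (poly k y) τ)).card : ℝ) /
        ((B i).card : ℝ)) atTop (𝓝 1) := by
  have h2k : (2 : k) ≠ 0 := by
    rw [← map_ofNat (algebraMap R k) 2]
    exact (map_ne_zero_iff _ (IsFractionRing.injective R k)).2 h2
  obtain ⟨U, hU1, hU2⟩ := exists_U (k := k) (L := L) (F := F) h2k n τ hτ
  have h1 := tendsto_of_dens {y | Good.{w} n U (poly k y)} (fun η hη =>
    dens_good R k n hR h2 h7 ho U η hη) B hB heq
  refine tendsto_of_tendsto_of_tendsto_of_le_of_le h1 tendsto_const_nhds (fun i => ?_) (fun i => ?_)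
  · have h0 : (0 : ℝ) < ((B i).card : ℝ) := by exact_mod_cast (hB i).card_pos
    apply div_le_div_of_nonneg_right _ h0.le
    have h3 : (B i).filter (fun y => y ∈ {y | Good.{w} n U (poly k y)}) ⊆
        (B i).filter (fun y => Holds L F (poly k y) τ) := by
      intro y hy
      rw [Finset.mem_filter] at hy ⊢
      refine ⟨hy.1, ?_⟩
      obtain ⟨hyp, ω, hω, h4⟩ := hy.2 L F (hU1 _)
      exact ⟨hyp, ω, hω, h4 W τ hU2⟩
    exact_mod_cast Finset.card_le_card h3
  · have h0 : (0 : ℝ) < ((B i).card : ℝ) := by exact_mod_cast (hB i).card_pos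
    show _ / _ ≤ (1 : ℝ)
    rw [div_le_one h0]
    exact_mod_cast Finset.card_filter_le _ _

end Pool.Agent.N197.Htj
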