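import Pool.Agent.N197.Htj.Disc
import Pool.Agent.N197.Htj.Tens

/-!
The good tuples of polynomials, and the density theorem.
-/

set_option autoImplicit false
set_option linter.all false

namespace Pool.Agent.N197.Htj

open TensorProduct Polynomial Pool.Agent.H204R3.GP Pool.Agent.N171
open Pool.Agent.X243.Gen (FF FullG solvM solvM_normal mem_solvM solvM_not_splits tendsto_of_dens)
open scoped Classical

universe w

/-- An extension `L` of `k` such that the separable algebraic elements of `L` over `k` have solvable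
Galois groups, or lie in a normal extension over which none of the polynomials `f i` splits, or in
which the only elements of `k` which become squares are those of `U`, up to squares. -/
def Allowed {k : Type} (L F : Type) [Field k] [Field L] [Field F] [Algebra k L] [Algebra L F]
    [Algebra k F] (U : Finset kˣ) {ι : Type} (f : ι → k[X]) : Prop :=
  (∀ x : L, IsSeparable k x → Group.IsSolvable (minpoly k x).Gal) ∨
  ∃ M : IntermediateField k F, Normal k M ∧ (∀ x : L, IsSeparable k x → algebraMap L F x ∈ M) ∧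
    ((∀ i, ¬ ((f i).map (algebraMap k M)).Splits) ∨
      ∀ c : kˣ, (∃ δ ∈ M, δ ^ 2 = algebraMap k F c) → ∃ u ∈ U, IsSquare (c * u))

/-- The conditions on the values, which do not depend on the polynomials. -/
def Tame {k L F W : Type*} [Field k] [Field L] [Field F] [Algebra L F] [Algebra k F]
    [AddCommGroup W] [Module ℚ_[2] W] {ι : Type*} (n : ι → ℕ) (U : Finset kˣ)
    (τ : Representation ℚ_[2] (F ≃ₐ[L] F) W) : Prop :=
  ∃ (d : ℕ) (b : Module.Basis (Fin d) ℚ_[2] W), (∀ s, TrivMod b (τ s) 0) ∧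
    ((∀ i, 2 ^ (d ^ 2 + 1) < (n i).factorial) ∨
      (∃ m : ℕ, ∀ s ∈ derivedSeries (F ≃ₐ[L] F) m, TrivMod b (τ s) 1) ∨
      ∀ c : kˣ, (∀ δ : F, δ ^ 2 = algebraMap k F c → ∀ s, TrivMod b (τ s) 1 → s δ = δ) →
        ∃ u ∈ U, IsSquare (c * u))

/-- The good tuples of polynomials. -/
def Good {k ι : Type} [Field k] (n : ι → ℕ) (U : Finset kˣ) (f : ι → k[X]) : Prop :=
  ∀ (L F : Type) [Field L] [Field F] [Algebra k L] [Algebra L F] [Algebra k F]
    [IsScalarTower k L F] [IsAlgClosure L F], Allowed L F U f →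
    ∃ (_ : ∀ i, HypP ((f i).map (algebraMap k L)))
      (ω : ∀ i, Vt (JacP ((f i).map (algebraMap k L)) F) →ₗ[ℚ_[2]]
        Vt (JacP ((f i).map (algebraMap k L)) F) →ₗ[ℚ_[2]] ℚ_[2]),
      (∀ i, IsWeil (vRep (JacP ((f i).map (algebraMap k L)) F) (F ≃ₐ[L] F)) (cycQ L F) (ω i)) ∧
      ∀ (W : Type w) [AddCommGroup W] [Module ℚ_[2] W] (τ : Representation ℚ_[2] (F ≃ₐ[L] F) W),
        Tame n U τ → Splits (vRep (JPi (fun i => (f i).map (algebraMap k L)) F) (F ≃ₐ[L] F))
          (cycQ L F) (fun i => pullP (fun i => (f i).map (algebraMap k L)) F i (ω i)) τ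

section main

variable {R k : Type} [CommRing R] [IsDomain R] [IsIntegrallyClosed R] [IsNoetherianRing R]
  [Field k] [Algebra R k] [IsFractionRing R k] {ι : Type} [Fintype ι] {n : ι → ℕ}
  {UR : Finset R} {y : (Σ i, Fin (n i)) → R}

theorem good_of_dat [Nonempty ι] (h2 : (2 : R) ≠ 0) (h7 : ∀ i, 7 ≤ n i) (ho : ∀ i, Odd (n i))
    {U : Finset kˣ} (hU : ∀ u ∈ U, ∃ v ∈ UR, ∃ b : k, (u : k) * algebraMap R k v = b ^ 2)
    (hy : Dat n UR y) :
    Good.{w} n U (fun i => (fR y i).map (algebraMap R k)) := by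
  intro L F _ _ _ _ _ _ _ hA
  have h3 : ∀ i, 3 ≤ n i := fun i => (by norm_num : 3 ≤ 7).trans (h7 i)
  have hinj : Function.Injective (algebraMap R k) := IsFractionRing.injective R k
  have h2k : (2 : k) ≠ 0 := by
    rw [← map_ofNat (algebraMap R k) 2]
    exact (map_ne_zero_iff _ hinj).2 h2
  have h2L : (2 : L) ≠ 0 := by
    rw [← map_ofNat (algebraMap k L) 2]
    exact (map_ne_zero_iff _ (algebraMap k L).injective).2 h2k
  obtain ⟨f, hf⟩ : ∃ f : ι → k[X], f = fun i => (fR y i).map (algebraMap R k) := ⟨_, rfl⟩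
  have hFF : ∀ i, FF (n i) (f i) := fun i => by rw [hf]; exact FF_of h3 hy i
  have hpair : ∀ i j, j ≠ i → ∀ (E : Type) [Field E] [Algebra k E] [FiniteDimensional k E]
      [IsGalois k E], ((f i).map (algebraMap k E)).Splits → ((f j).map (algebraMap k E)).Splits →
      ∃ σ : E ≃ₐ[k] E, (∀ θ ∈ (f j).rootSet E, σ θ = θ) ∧ ∀ θ ∈ (f i).rootSet E, σ θ ≠ θ := by
    intro i j hij E _ _ _ _ hi hj
    rw [hf] at hi hj ⊢
    exact pair_frob h3 hy hij E hi hj
  have hmon : ∀ i, (f i).Monic := fun i => by rw [hf]; exact (mP_monic _).map _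
  have hquad : ∀ i, ∀ (S : Set (F →+* F)), (∀ s ∈ S, ∀ x, aeval x (f i) = 0 → s x = x) →
      (∀ (c : k), c ≠ 0 → (∀ δ : F, δ ^ 2 = algebraMap k F c → ∀ s ∈ S, s δ = δ) →
      ∃ u ∈ UR, ∃ b : k, c * algebraMap R k u = b ^ 2) → False := by
    intro i S hS hc
    haveI : IsAlgClosed F := IsAlgClosure.isAlgClosed L
    rw [hf] at hS
    exact quad_F h2 h3 ho hy i S hS hc
  have hdisc : ∀ i (M : IntermediateField k F), ((f i).map (algebraMap k M)).Splits →
      (∀ c : kˣ, (∃ δ ∈ M, δ ^ 2 = algebraMap k F c) → ∃ u ∈ U, IsSquare (c * u)) → False := by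
    intro i M hi hM
    haveI : IsAlgClosed F := IsAlgClosure.isAlgClosed L
    have hne : f i ≠ 0 := (hmon i).ne_zero
    rw [hf] at hi hne
    obtain ⟨c, hc, -, ⟨δ, hδ, hδM⟩, h5⟩ := quad_T (k := k) h2 h3 ho hy i (F := F)
      M.toSubfield.toSubring (fun x hx => by
        obtain ⟨θ, -, hθ⟩ := root_mem (E := M) hne hi hx
        rw [← hθ]
        exact θ.2)
    obtain ⟨u, hu, hsq⟩ := hM (Units.mk0 c hc) ⟨δ, hδM, hδ⟩
    obtain ⟨v, hv, e, he⟩ := hU u hu
    obtain ⟨r, hr⟩ := hsq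
    refine h5 v hv ((r : k) * e * (u : k)⁻¹) ?_
    have hu0 : (u : k) ≠ 0 := u.ne_zero
    have h8 : c * (u : k) = (r : k) * r := by
      have := congrArg (fun t : kˣ => (t : k)) hr
      simpa using this
    calc c * algebraMap R k v = (c * u) * (u * algebraMap R k v) * ((u : k)⁻¹ * (u : k)⁻¹) := by
          field_simp
      _ = ((r : k) * e * (u : k)⁻¹) ^ 2 := by
          rw [h8, he]
          ring
  rw [← hf] at hA ⊢
  clear hf
  have hdeg : ∀ i, (f i).natDegree = n i := fun i => (hFF i).1.2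
  have hdegL : ∀ i, ((f i).map (algebraMap k L)).natDegree = n i := fun i => by
    rw [natDegree_map, hdeg]
  haveI : IsAlgClosed F := IsAlgClosure.isAlgClosed L
  have hyp : ∀ i, HypP ((f i).map (algebraMap k L)) := fun i =>
    { monic := (hmon i).map _
      sep := (hFF i).2.1.map
      odd := by rw [hdegL]; exact ho i
      two := h2L }
  obtain ⟨M, hMn, hM, hns⟩ : ∃ M : IntermediateField k F, Normal k M ∧
      (∀ x : L, IsSeparable k x → algebraMap L F x ∈ M) ∧
      ∀ i, ¬ ((f i).map (algebraMap k M)).Splits := by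
    rcases hA with hA | hA
    · exact ⟨solvM k F, solvM_normal F, fun x hx => mem_solvM hx (hA x hx), fun i =>
        solvM_not_splits F (hFF i).2.1 (by rw [hdeg]; exact (by norm_num : 5 ≤ 7).trans (h7 i))
          (hFF i).2.2⟩
    · obtain ⟨M, hM1, hM2, hM3⟩ := hA
      refine ⟨M, hM1, hM2, fun i hi => ?_⟩
      rcases hM3 with hM3 | hM3
      · exact hM3 i hi
      · exact hdisc i M hi hM3
  haveI := hMn
  have h5 : ∀ i, 5 ≤ (f i).natDegree := fun i => by
    rw [hdeg]; exact (by norm_num : 5 ≤ 7).trans (h7 i)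
  have hbig : ∀ i, ∀ π : Equiv.Perm (((f i).map (algebraMap k L)).rootSet F),
      Equiv.Perm.sign π = 1 →
      ∃ s : F ≃ₐ[L] F, ∀ x : ((f i).map (algebraMap k L)).rootSet F, s (x : F) = (π x : F) :=
    fun i π hπ => big_L (hFF i).2.1 (h5 i) (hFF i).2.2 M hM (hns i) π hπ
  have hnot : ∀ i j, j ≠ i → ∃ s : F ≃ₐ[L] F,
      (∀ x ∈ ((f j).map (algebraMap k L)).rootSet F, s x = x) ∧
      ∃ x ∈ ((f i).map (algebraMap k L)).rootSet F, s x ≠ x :=
    fun i j hij => notIn_L (hFF i).2.1 (hFF j).2.1 (h5 i) (hFF i).2.2 M hM (hns i) (hpair i j hij)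
  obtain ⟨ω, hω, h⟩ := bg.{w} (K := L) (F := F) (fun i => (f i).map (algebraMap k L))
    (fun i => by rw [hdegL]; exact h7 i) (fun i π hπ => hbig i π hπ) hnot
  refine ⟨hyp, ω, hω, fun W _ _ τ hτ => h W τ ?_⟩
  have hcard : ∀ i, Nat.card (((f i).map (algebraMap k L)).rootSet F) = n i := fun i => by
    rw [Nat.card_eq_fintype_card, card_rootSet_eq_natDegree (hFF i).2.1.map
      (IsAlgClosed.splits _), hdegL]
  obtain ⟨d, b, hb, h1 | ⟨m, h1⟩ | h1⟩ := hτ
  · exact ⟨d, b, hb, fun i => Or.inl (by rw [hdegL]; exact h1 i)⟩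
  · refine ⟨d, b, hb, fun i => Or.inr ?_⟩
    obtain ⟨φ, hφ⟩ : ∃ φ, φ = MulAction.toPermHom (F ≃ₐ[L] F)
      (((f i).map (algebraMap k L)).rootSet F) := ⟨_, rfl⟩
    have h4 : alternatingGroup (((f i).map (algebraMap k L)).rootSet F) ≤ φ.range := by
      intro π hπ
      rw [Equiv.Perm.mem_alternatingGroup] at hπ
      obtain ⟨s, hs⟩ := hbig i π hπ
      refine ⟨s, ?_⟩
      ext x
      rw [hφ]
      exact hs x
    have h6 := derived_big φ (by rw [hcard]; exact (by norm_num : 5 ≤ 7).trans (h7 i)) h4 m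
    obtain ⟨e⟩ : Nonempty (Fin (n i) ≃ ((f i).map (algebraMap k L)).rootSet F) :=
      ⟨(Fintype.equivFinOfCardEq (by rw [← Nat.card_eq_fintype_card]; exact hcard i)).symm⟩
    have h7i := h7 i
    obtain ⟨a, ha⟩ : ∃ a, a = e ⟨0, by omega⟩ := ⟨_, rfl⟩
    obtain ⟨c, hc⟩ : ∃ c, c = e ⟨1, by omega⟩ := ⟨_, rfl⟩
    obtain ⟨z, hz⟩ : ∃ z, z = e ⟨2, by omega⟩ := ⟨_, rfl⟩
    have hac : a ≠ c := by
      rw [ha, hc]
      intro h8
      have := congrArg Fin.val (e.injective h8)
      simp at this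
    have hcz : c ≠ z := by
      rw [hc, hz]
      intro h8
      have := congrArg Fin.val (e.injective h8)
      simp at this
    have haz : a ≠ z := by
      rw [ha, hz]
      intro h8
      have := congrArg Fin.val (e.injective h8)
      simp at this
    obtain ⟨s, hs, hs'⟩ := h6 (Equiv.Perm.mul_mem_alternatingGroup_of_isSwap
      ⟨a, c, hac, rfl⟩ ⟨c, z, hcz, rfl⟩)
    refine ⟨s, h1 s hs, (a : F), a.2, ?_⟩
    intro h8
    have h9 : φ s a = a := by
      apply Subtype.ext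
      rw [hφ]
      exact h8
    rw [hs', Equiv.Perm.mul_apply, Equiv.swap_apply_of_ne_of_ne hac haz, Equiv.swap_apply_left] at h9
    exact hac h9.symm
  · refine ⟨d, b, hb, fun i => Or.inr ?_⟩
    by_contra hcon
    push Not at hcon
    apply hquad i {s | ∃ t : F ≃ₐ[L] F, TrivMod b (τ t) 1 ∧ s = (t : F →+* F)}
    · rintro s ⟨t, ht, rfl⟩ x hx
      exact hcon t ht x ((mem_rs (hFF i).2.1.ne_zero x).2 hx)
    · intro c hc hfix
      obtain ⟨u, hu, hsq⟩ := h1 (Units.mk0 c hc) (fun δ hδ s hs => hfix δ hδ _ ⟨s, hs, rfl⟩)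
      obtain ⟨v, hv, e, he⟩ := hU u hu
      obtain ⟨r, hr⟩ := hsq
      refine ⟨v, hv, (r : k) * e * (u : k)⁻¹, ?_⟩
      have hu0 : (u : k) ≠ 0 := u.ne_zero
      have h8 : c * (u : k) = (r : k) * r := by
        have := congrArg (fun t : kˣ => (t : k)) hr
        simpa using this
      have h9 : (u : k)⁻¹ * u = 1 := inv_mul_cancel₀ hu0
      calc c * algebraMap R k v = (c * u) * (u * algebraMap R k v) * ((u : k)⁻¹ * (u : k)⁻¹) := by
            field_simp
        _ = ((r : k) * e * (u : k)⁻¹) ^ 2 := by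
            rw [h8, he]
            ring

end main

end Pool.Agent.N197.Htj
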